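import Pool.Agent.V7H89.GL.Few
import Pool.Agent.W327.HF.Fwd

/-!
# The Lindelöf bound inside the strip; zeros of the heat flow without hypothesis
-/

set_option autoImplicit false

open Complex Set MeasureTheory Filter Topology
open scoped ComplexConjugate

namespace Pool.Agent.V7H89.GL

open Pool.Agent.W169.HF H353.E H353.F

variable {m : ℕ}

lemma LL_diff {N : ℝ} (hN : 1 ≤ N) {μ : Fin m → ℂ} {Λ : ℂ → ℂ} (h : Differentiable ℂ (XX N Λ)) :
    Differentiable ℂ (LL N μ Λ) := by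
  unfold LL
  refine h.mul ?_
  have hN0 : (N : ℂ) ≠ 0 := by
    have : N ≠ 0 := by linarith
    exact_mod_cast this
  have e : (fun s : ℂ => (gaf N μ s)⁻¹) =
      fun s : ℂ => (N : ℂ) ^ (-(s / 2)) * ∏ j, (Gammaℝ (s - μ j))⁻¹ := by
    funext s
    unfold gaf
    rw [mul_inv, Finset.prod_inv_distrib, Complex.cpow_neg]
  rw [e]
  refine Differentiable.mul (fun z => ?_) ?_
  · exact ((((hasDerivAt_id z).div_const 2).neg).const_cpow (c := (N : ℂ))
      (Or.inl hN0)).differentiableAt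
  · refine Differentiable.fun_finsetProd fun j _ => ?_
    exact differentiable_Gammaℝ_inv.comp (differentiable_id.sub_const _)

/-- the Lindelöf bound on the critical line gives it on the right of it -/
theorem lind_mid (hm : 1 ≤ m) {θ : ℝ} (hθ0 : 0 ≤ θ) (hθ : θ < 1 / 2) {r κ0 : ℝ}
    (hr0 : 0 ≤ r) (hr1 : r ≤ 1 / 2) (hκ0 : 0 < κ0) (Cb : ℝ → ℝ) :
    ∃ C : ℝ, 0 < C ∧ ∀ (N : ℝ) (μ : Fin m → ℂ) (α : Fin m → ℕ → ℂ) (ε : ℂ) (Λ : ℂ → ℂ),
      Dat θ N μ α ε Λ →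
      (∀ κ : ℝ, 0 < κ → ∀ y : ℝ, ‖LL N μ Λ (1 / 2 + y * I)‖ ≤ Cb κ * cq N μ y ^ κ) →
      ∀ y : ℝ, ‖LL N μ Λ (1 / 2 + y * I + r)‖ ≤ C * cq N μ y ^ κ0 := by
  have hm' : (1 : ℝ) ≤ m := by exact_mod_cast hm
  obtain ⟨K, hK, HB⟩ := base hm hθ0 hθ
  obtain ⟨κ', R3, ρ', ℓb, hκ', hρ'0, hρ'1, HM⟩ := maj (K1 := K) rect_all hK (by linarith)
    (show 1 / 2 ≤ 1 + θ by linarith)
    (by linarith) (b := 1) (M0 := 0) (κ := κ0) (by norm_num) (by norm_num) le_rfl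
    (by norm_num) hκ0 (fun _ => K)
  obtain ⟨R4, ℓc, hR4, HP⟩ := prof_all K (1 + θ) (1 / 2) (1 / 2) κ' (max R3 1) hK (by linarith)
    (by linarith) (by norm_num) (by linarith) (by norm_num) (by norm_num) hκ' (le_max_right _ _)
  obtain ⟨ε1, hε1d⟩ : ∃ ε1 : ℝ, ε1 = min (κ' / 8) (1 / 2) := ⟨_, rfl⟩
  have hε1 : 0 < ε1 := by rw [hε1d]; exact lt_min (by positivity) (by norm_num)
  have hε1a : ε1 ≤ κ' / 8 := by rw [hε1d]; exact min_le_left _ _
  have hε1b : ε1 ≤ 1 / 2 := by rw [hε1d]; exact min_le_right _ _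
  obtain ⟨c, hc⟩ : ∃ c : ℝ, c = 15 * (m : ℝ) := ⟨_, rfl⟩
  have hc0 : 0 < c := by rw [hc]; positivity
  obtain ⟨E1, hE1⟩ : ∃ E1 : ℝ, E1 = (Real.log (max (Cb ε1) 1) + (c + m * |R3|)) / (κ' / 2) := ⟨_, rfl⟩
  obtain ⟨ℓ0, hℓ0⟩ : ∃ ℓ0 : ℝ, ℓ0 = max ℓb (max ℓc (max E1 1)) := ⟨_, rfl⟩
  have hℓ01 : 1 ≤ ℓ0 := by
    rw [hℓ0]
    exact (le_max_right _ _).trans ((le_max_right _ _).trans (le_max_right _ _))
  refine ⟨Real.exp (max (κ0 * c + 4 * K) (2 * ℓ0 + 2 * c + 4 * K)), Real.exp_pos _, ?_⟩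
  intro N μ α ε Λ D hbd y
  have hN := D.d.one_le
  obtain ⟨hCl, hne, HU⟩ := HB N μ α ε Λ D
  obtain ⟨hud, hgam, hl1, hl2, hc1, hfne⟩ := HU y
  obtain ⟨ℓ, hℓd⟩ : ∃ ℓ : ℝ, ℓ = el N μ y := ⟨_, rfl⟩
  rw [← hℓd] at hud hgam hl1 hl2
  have hG := hud.hG
  obtain ⟨L, hL⟩ : ∃ L : ℝ, L = Real.log (cq N μ y) := ⟨_, rfl⟩
  have hcnd0 : 0 < cq N μ y := by linarith
  have hLnn : 0 ≤ L := by rw [hL]; exact Real.log_nonneg hc1
  have hpow : cq N μ y ^ κ0 = Real.exp (L * κ0) := by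
    rw [Real.rpow_def_of_pos hcnd0, ← hL]
  rw [hpow, ← Real.exp_add]
  rw [← hL, ← hc] at hl1 hl2
  have hrn : ‖(r : ℂ)‖ ^ 2 ≤ 1 := by
    rw [Complex.norm_real, Real.norm_eq_abs, sq_abs]
    nlinarith
  have hrre : ((r : ℂ)).re = r := Complex.ofReal_re r
  have hKr : K * (1 + ‖(r : ℂ)‖ ^ 2) ≤ 2 * K := by nlinarith
  obtain ⟨hg1, -⟩ := hgam r (by rw [hrre]; exact hr0)
  rcases le_or_gt ℓ0 ℓ with hℓ | hℓ
  · have hℓb : ℓb ≤ ℓ := (le_max_left _ _).trans (hℓ0 ▸ hℓ)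
    have hℓc : ℓc ≤ ℓ := ((le_max_left _ _).trans (le_max_right _ _)).trans (hℓ0 ▸ hℓ)
    have hℓE : E1 ≤ ℓ := ((le_max_left _ _).trans ((le_max_right _ _).trans (le_max_right _ _))).trans
      (hℓ0 ▸ hℓ)
    have hℓ1 : 1 ≤ ℓ := by linarith
    rw [hE1, div_le_iff₀ (by positivity)] at hℓE
    have hpf := HP ℓ (GG θ N μ y) (ff N Λ y) hℓc hud (fun u hu _ => hfne u hu)
    have e12 : (1 / 2 + 1 / 2 : ℝ) = 1 := by norm_num
    rw [e12] at hpf
    have hpf2 : Pf κ' 1 R3 ℓ (GG θ N μ y) (ff N Λ y) :=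
      pf_mono hpf le_rfl (le_max_left _ _) (by linarith) hG.le
    have hmaj : Mj κ0 1 0 ℓ (GG θ N μ y) (ff N Λ y) := by
      refine HM ℓ (GG θ N μ y) (ff N Λ y) (fun u => LL N μ Λ (1 / 2 + y * I + u))
        (fun u => gaf N μ (1 / 2 + y * I + u)) hℓb hud hpf2 ?_ (fun u => rfl) ?_ ?_ ?_
      · exact (LL_diff hN hCl.slow.1).comp (by fun_prop)
      · intro u hu
        obtain ⟨h3, -⟩ := hgam u hu
        rw [norm_inv]
        have h4 : 0 < GG θ N μ y * Real.exp (ℓ * u.re - K * (1 + ‖u‖ ^ 2)) := by positivity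
        refine (inv_anti₀ h4 h3).trans (le_of_eq ?_)
        rw [mul_inv, ← Real.exp_neg]
        congr 2
        ring
      · intro u hu
        obtain ⟨h3, h4⟩ := hgam u (by linarith)
        refine ⟨fun h0 => ?_, h4⟩
        rw [h0, norm_zero] at h3
        have h5 : 0 < GG θ N μ y * Real.exp (ℓ * u.re - K * (1 + ‖u‖ ^ 2)) := by positivity
        linarith
      · intro v hv
        have h3 := hbd ε1 hε1 (y + v)
        have e : (1 / 2 + ((y + v : ℝ) : ℂ) * I) = 1 / 2 + y * I + (v : ℂ) * I := by push_cast; ring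
        rw [e] at h3
        refine h3.trans ?_
        have h4 := cq_move hN μ y v
        have h5 : 0 < cq N μ (y + v) := lt_of_lt_of_le (by linarith) (le_cq hN μ (y + v))
        have hmax : 0 < max (Cb ε1) 1 := lt_of_lt_of_le one_pos (le_max_right _ _)
        calc Cb ε1 * cq N μ (y + v) ^ ε1
            ≤ max (Cb ε1) 1 * cq N μ (y + v) ^ ε1 :=
              mul_le_mul_of_nonneg_right (le_max_left _ _) (Real.rpow_nonneg h5.le _)
          _ = Real.exp (Real.log (max (Cb ε1) 1) + Real.log (cq N μ (y + v)) * ε1) := by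
              rw [Real.exp_add, Real.exp_log hmax, Real.rpow_def_of_pos h5]
          _ ≤ Real.exp (ℓ * 0 + κ' * ℓ) := by
              apply Real.exp_le_exp.2
              have h6 : (m : ℝ) * |v| ≤ m * |R3| :=
                mul_le_mul_of_nonneg_left (hv.trans (le_abs_self _)) (by linarith)
              rw [← hL] at h4
              have h7 : Real.log (cq N μ (y + v)) ≤ 2 * ℓ + (c + m * |R3|) := by linarith
              have h8 : Real.log (cq N μ (y + v)) * ε1 ≤ (2 * ℓ + (c + m * |R3|)) * ε1 :=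
                mul_le_mul_of_nonneg_right h7 (by linarith)
              have h9 : (c + m * |R3|) * ε1 ≤ (c + m * |R3|) * 1 :=
                mul_le_mul_of_nonneg_left (by linarith) (by positivity)
              have h10 : ε1 * ℓ ≤ κ' / 8 * ℓ := mul_le_mul_of_nonneg_right hε1a (by linarith)
              have h11 : 0 < κ' * ℓ := by positivity
              linarith
    have h1 := hmaj r hr0 (by linarith)
    have hLLn := LL_norm hG hg1 h1
    refine hLLn.trans (Real.exp_le_exp.2 ?_)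
    refine le_trans ?_ (add_le_add (le_max_left _ _) le_rfl)
    rw [hrre]
    have h2 : κ0 * ℓ ≤ κ0 * ((L + c) / 2) := mul_le_mul_of_nonneg_left (by linarith) hκ0.le
    have h3 : 0 ≤ κ0 * L := by positivity
    have h4 : 0 ≤ κ0 * c := by positivity
    have h5 : ℓ * (0 + (1 - 0 / 1) * r) = ℓ * r := by ring
    rw [h5]
    linarith
  · have hup := hud.up r
    have habs : |((r : ℂ)).re| = r := by rw [hrre, abs_of_nonneg hr0]
    rw [habs, max_eq_right (by linarith : r ≤ 1 + θ)] at hup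
    have hLLn := LL_norm hG hg1 hup
    refine hLLn.trans (Real.exp_le_exp.2 ?_)
    rw [hrre]
    have h0 : 0 ≤ L * κ0 := mul_nonneg hLnn hκ0.le
    refine le_trans ?_ (le_add_of_nonneg_right h0)
    refine le_trans ?_ (le_max_right _ _)
    have h1 : ℓ * (1 + θ) - ℓ * r ≤ 2 * ℓ0 + 2 * c := by
      have h2 : ℓ * (1 + θ) - ℓ * r = ℓ * (1 + θ - r) := by ring
      rw [h2]
      rcases le_total 0 ℓ with h | h
      · calc ℓ * (1 + θ - r) ≤ ℓ * 2 := mul_le_mul_of_nonneg_left (by linarith) h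
          _ ≤ _ := by linarith
      · have h3 : ℓ * (1 + θ - r) ≤ 0 := mul_nonpos_of_nonpos_of_nonneg h (by linarith)
        linarith
    linarith

theorem fwd_all : S_FWD := W327.HF.fwd_of prof_all Pool.Agent.W363.HF.ju jl_all

/-- for `x > 1` the zeros of the heat flow are on the line -/
theorem line_uncond (hm : 1 ≤ m) {θ : ℝ} (hθ0 : 0 ≤ θ) (hθ : θ < 1 / 2) {x R : ℝ} (hx : 1 < x) (hR : 0 ≤ R) :
    ∃ Q0 : ℝ, 1 < Q0 ∧ ∀ (N : ℝ) (μ : Fin m → ℂ) (α : Fin m → ℕ → ℂ) (ε : ℂ) (Λ : ℂ → ℂ),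
      Dat θ N μ α ε Λ → ∀ T : ℝ, Q0 ≤ cq N μ T → ∀ s : ℂ, |s.im - T| ≤ R →
        heat (x / Real.log (cq N μ T)) (XX N Λ) s = 0 → s.re = 1 / 2 := by
  have hm' : (1 : ℝ) ≤ m := by exact_mod_cast hm
  have hx0 : 0 < x := by linarith
  obtain ⟨K, hK, HB⟩ := base hm hθ0 hθ
  obtain ⟨Δ, hΔd⟩ : ∃ Δ : ℝ, Δ = x - 1 := ⟨_, rfl⟩
  have hΔ : 0 < Δ := by linarith
  obtain ⟨R2, ℓa, HF⟩ := fwd_all K (1 + θ) (1 / 2) (Δ / 2) (x + 1) hK (by linarith)
    (by linarith) (by norm_num) (by linarith) (by linarith) (by linarith)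
  obtain ⟨c, hc⟩ : ∃ c : ℝ, c = 15 * m + m * R := ⟨_, rfl⟩
  have hc0 : 0 < c := by rw [hc]; positivity
  refine ⟨Real.exp (max (2 * |ℓa| + c) (max (2 * x * c / Δ) (max (x * c) 1))), ?_, ?_⟩
  · apply Real.one_lt_exp_iff.2
    have := (le_max_right (x * c) 1).trans ((le_max_right (2 * x * c / Δ) _).trans
      (le_max_right (2 * |ℓa| + c) _))
    linarith
  intro N μ α ε Λ D T hT s hs hz
  have hN := D.d.one_le
  obtain ⟨hCl, hne, HU⟩ := HB N μ α ε Λ D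
  obtain ⟨L, hL⟩ : ∃ L : ℝ, L = Real.log (cq N μ T) := ⟨_, rfl⟩
  have hLge : max (2 * |ℓa| + c) (max (2 * x * c / Δ) (max (x * c) 1)) ≤ L := by
    have := Real.log_le_log (Real.exp_pos _) hT
    rwa [Real.log_exp, ← hL] at this
  have hLa : 2 * |ℓa| + c ≤ L := (le_max_left _ _).trans hLge
  have hLb : 2 * x * c / Δ ≤ L := ((le_max_left _ _).trans (le_max_right _ _)).trans hLge
  have hLc : x * c ≤ L :=
    ((le_max_left _ _).trans ((le_max_right _ _).trans (le_max_right _ _))).trans hLge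
  have hLd : 1 ≤ L :=
    ((le_max_right _ _).trans ((le_max_right _ _).trans (le_max_right _ _))).trans hLge
  have hL0 : 0 < L := by linarith
  rw [← hL] at hz
  obtain ⟨y, hy⟩ : ∃ y : ℝ, y = s.im := ⟨_, rfl⟩
  rw [← hy] at hs
  obtain ⟨hud, hgam, hl1, hl2, -, hfne⟩ := HU y
  obtain ⟨ℓ, hℓd⟩ : ∃ ℓ : ℝ, ℓ = el N μ y := ⟨_, rfl⟩
  rw [← hℓd] at hud hl1 hl2
  have hmv : (m : ℝ) * |y - T| ≤ m * R := mul_le_mul_of_nonneg_left hs (by linarith)
  have h1 : L - c ≤ 2 * ℓ := by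
    have h3 := cq_move' hN μ T (y - T)
    rw [add_sub_cancel, ← hL] at h3
    rw [hc]
    linarith
  have h2 : 2 * ℓ ≤ L + c := by
    have h3 := cq_move hN μ T (y - T)
    rw [add_sub_cancel, ← hL] at h3
    rw [hc]
    linarith
  have hℓa : ℓa ≤ ℓ := by linarith [le_abs_self ℓa]
  obtain ⟨ht1, ht2⟩ := time_cmp hx0 hL0 h1 h2
  have hxc1 : x * c / L ≤ Δ / 2 := by
    rw [div_le_iff₀ hΔ] at hLb
    rw [div_le_iff₀ hL0]
    linarith
  have hxc2 : x * c / L ≤ 1 := by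
    rw [div_le_iff₀ hL0]
    linarith
  have ht0 : 0 < x / L := by positivity
  have hfw := HF ℓ (GG θ N μ y) (x / L) (ff N Λ y) hℓa hud ht0 (by linarith) (by linarith)
    (fun u hu _ => hfne u hu)
  have hdb := (db_all 1 (XX N Λ) hCl hne (x / L) ht0.le).2
  have hre1 : s.re ≤ 3 / 2 := by
    have := hdb.zer s hz
    linarith
  have hre2 : -(1 / 2) ≤ s.re := by
    obtain ⟨w, hw1, hw2⟩ := hdb.fe
    have h3 := hw2 s
    rw [hz] at h3
    have h4 : heat (x / L) (XX N Λ) (1 - conj s) = 0 := by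
      have hw0 : w ≠ 0 := by
        intro h
        rw [h, norm_zero] at hw1
        norm_num at hw1
      have h5 := (mul_eq_zero.1 h3.symm).resolve_left hw0
      exact (map_eq_zero _).1 h5
    have h5 := hdb.zer _ h4
    simp at h5
    linarith
  by_contra hcon
  have hx' : s.re - 1 / 2 ≠ 0 := fun h => hcon (by linarith)
  refine hfw (s.re - 1 / 2) hx' (abs_le.2 ⟨by linarith, by linarith⟩) ?_
  have h3 : heat (x / L) (ff N Λ y) ((s.re - 1 / 2 : ℝ) : ℂ) =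
      heat (x / L) (XX N Λ) (1 / 2 + y * I + ((s.re - 1 / 2 : ℝ) : ℂ)) :=
    heat_shift (x / L) (XX N Λ) (1 / 2 + y * I) _
  rw [h3, ← hz]
  congr 1
  apply Complex.ext
  · simp
  · simp [hy]

end Pool.Agent.V7H89.GL
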