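import Pool.Agent.V7H89.GL.Fam

/-!
# A bound on the critical line puts the zeros of the heat flow on the line
-/

set_option autoImplicit false

open Complex Set MeasureTheory Filter Topology
open scoped ComplexConjugate

namespace Pool.Agent.V7H89.GL

open Pool.Agent.W169.HF H353.E H353.F

variable {m : ℕ}

/-- the time `x / log Q` in terms of `ℓ` -/
lemma time_cmp {x c L ℓ : ℝ} (hx : 0 < x) (hL : 0 < L) (h1 : L - c ≤ 2 * ℓ) (h2 : 2 * ℓ ≤ L + c) :
    x - x * c / L ≤ 2 * (x / L) * ℓ ∧ 2 * (x / L) * ℓ ≤ x + x * c / L := by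
  have e : 2 * (x / L) * ℓ = x / L * (2 * ℓ) := by ring
  have hxL : 0 < x / L := by positivity
  rw [e]
  constructor
  · calc x - x * c / L = x / L * (L - c) := by field_simp
      _ ≤ _ := mul_le_mul_of_nonneg_left h1 hxL.le
  · calc x / L * (2 * ℓ) ≤ x / L * (L + c) := mul_le_mul_of_nonneg_left h2 hxL.le
      _ = x + x * c / L := by field_simp

/-- the L-function through the completed L-function -/
lemma LL_norm {N : ℝ} {μ : Fin m → ℂ} {Λ : ℂ → ℂ} {y G ℓ K : ℝ} {u : ℂ} (hG : 0 < G)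
    (h : G * Real.exp (ℓ * u.re - K * (1 + ‖u‖ ^ 2)) ≤ ‖gaf N μ (1 / 2 + y * I + u)‖) {E : ℝ}
    (hf : ‖ff N Λ y u‖ ≤ G * Real.exp E) :
    ‖LL N μ Λ (1 / 2 + y * I + u)‖ ≤ Real.exp (E - ℓ * u.re + K * (1 + ‖u‖ ^ 2)) := by
  have hpos : 0 < G * Real.exp (ℓ * u.re - K * (1 + ‖u‖ ^ 2)) := by positivity
  unfold LL
  rw [norm_mul, norm_inv, ← div_eq_mul_inv, div_le_iff₀ (hpos.trans_le h)]
  calc ‖XX N Λ (1 / 2 + y * I + u)‖ ≤ G * Real.exp E := hf
    _ = Real.exp (E - ℓ * u.re + K * (1 + ‖u‖ ^ 2)) *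
        (G * Real.exp (ℓ * u.re - K * (1 + ‖u‖ ^ 2))) := by
        rw [mul_left_comm, ← Real.exp_add]
        congr 2
        ring
    _ ≤ _ := mul_le_mul_of_nonneg_left h (Real.exp_pos _).le

theorem line_of_bound (hm : 1 ≤ m) {θ : ℝ} (hθ0 : 0 ≤ θ) (hθ : θ < 1 / 2) {μ0 x R : ℝ} (hμ0 : 0 ≤ μ0)
    (hμ1 : μ0 < 1 / 4) (hx0 : 0 < x) (hx : 1 < (2 - 4 * μ0) * x) (hR : 0 ≤ R) (Cb : ℝ → ℝ) :
    ∃ Q0 : ℝ, 1 < Q0 ∧ ∀ (N : ℝ) (μ : Fin m → ℂ) (α : Fin m → ℕ → ℂ) (ε : ℂ) (Λ : ℂ → ℂ),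
      Dat θ N μ α ε Λ →
      (∀ κ : ℝ, 0 < κ → ∀ y : ℝ, ‖LL N μ Λ (1 / 2 + y * I)‖ ≤ Cb κ * cq N μ y ^ (μ0 + κ)) →
      ∀ T : ℝ, Q0 ≤ cq N μ T → ∀ s : ℂ, |s.im - T| ≤ R →
        heat (x / Real.log (cq N μ T)) (XX N Λ) s = 0 → s.re = 1 / 2 := by
  have hm' : (1 : ℝ) ≤ m := by exact_mod_cast hm
  obtain ⟨K, hK, HB⟩ := base hm hθ0 hθ
  obtain ⟨Δ, hΔd⟩ : ∃ Δ : ℝ, Δ = (1 - 2 * μ0) * x - 1 / 2 := ⟨_, rfl⟩
  have hΔ : 0 < Δ := by rw [hΔd]; nlinarith
  obtain ⟨ρ, hρd⟩ : ∃ ρ : ℝ, ρ = min 1 Δ / 16 := ⟨_, rfl⟩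
  have hρ : 0 < ρ := by rw [hρd]; have := lt_min one_pos hΔ; positivity
  have hρ1 : ρ ≤ 1 / 16 := by rw [hρd]; linarith [min_le_left 1 Δ]
  have hρΔ : ρ ≤ Δ / 16 := by rw [hρd]; linarith [min_le_right 1 Δ]
  obtain ⟨κ, R2, ℓa, hκ, HF⟩ := fwd2_all K (1 + θ) (1 / 2 + ρ) (2 * μ0) ρ (x + 1) hK (by linarith)
    (by linarith) (by linarith) (by linarith) (by linarith) (by linarith) hρ (by linarith) (by linarith)
  obtain ⟨κ', R3, ρ', ℓb, hκ', hρ'0, hρ'1, HM⟩ := maj (K1 := K) rect_all hK (by linarith)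
    (show 1 / 2 ≤ 1 + θ by linarith)
    (by linarith) (b := 1 / 2 + ρ) (M0 := 2 * μ0) (κ := κ) (by linarith) (by linarith) (by linarith)
    (by linarith) hκ (fun _ => K)
  obtain ⟨R4, ℓc, hR4, HP⟩ := prof_all K (1 + θ) (1 / 2) ρ (min κ κ') (max (max R2 R3) 1) hK (by linarith)
    (by linarith) (by norm_num) (by linarith) hρ (by linarith) (lt_min hκ hκ') (le_max_right _ _)
  obtain ⟨ε1, hε1d⟩ : ∃ ε1 : ℝ, ε1 = min (κ' / 8) (1 / 2) := ⟨_, rfl⟩
  have hε1 : 0 < ε1 := by rw [hε1d]; exact lt_min (by positivity) (by norm_num)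
  have hε1a : ε1 ≤ κ' / 8 := by rw [hε1d]; exact min_le_left _ _
  have hε1b : ε1 ≤ 1 / 2 := by rw [hε1d]; exact min_le_right _ _
  obtain ⟨c, hc⟩ : ∃ c : ℝ, c = 15 * m + m * R := ⟨_, rfl⟩
  have hc0 : 0 < c := by rw [hc]; positivity
  obtain ⟨E1, hE1⟩ : ∃ E1 : ℝ, E1 = (Real.log (max (Cb ε1) 1) + (15 * m + m * |R3|)) / (κ' / 2) := ⟨_, rfl⟩
  obtain ⟨ℓ0, hℓ0⟩ : ∃ ℓ0 : ℝ, ℓ0 = max (max ℓa ℓb) (max ℓc (max E1 1)) := ⟨_, rfl⟩
  refine ⟨Real.exp (max (2 * ℓ0 + c) (max (2 * x * c / Δ) (max (x * c) 1))), ?_, ?_⟩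
  · apply Real.one_lt_exp_iff.2
    have := (le_max_right (x * c) 1).trans ((le_max_right (2 * x * c / Δ) _).trans
      (le_max_right (2 * ℓ0 + c) _))
    linarith
  intro N μ α ε Λ D hbd T hT s hs hz
  have hN := D.d.one_le
  obtain ⟨hCl, hne, HU⟩ := HB N μ α ε Λ D
  obtain ⟨L, hL⟩ : ∃ L : ℝ, L = Real.log (cq N μ T) := ⟨_, rfl⟩
  have hLge : max (2 * ℓ0 + c) (max (2 * x * c / Δ) (max (x * c) 1)) ≤ L := by
    have := Real.log_le_log (Real.exp_pos _) hT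
    rwa [Real.log_exp, ← hL] at this
  have hLa : 2 * ℓ0 + c ≤ L := (le_max_left _ _).trans hLge
  have hLb : 2 * x * c / Δ ≤ L := ((le_max_left _ _).trans (le_max_right _ _)).trans hLge
  have hLc : x * c ≤ L :=
    ((le_max_left _ _).trans ((le_max_right _ _).trans (le_max_right _ _))).trans hLge
  have hLd : 1 ≤ L :=
    ((le_max_right _ _).trans ((le_max_right _ _).trans (le_max_right _ _))).trans hLge
  have hL0 : 0 < L := by linarith
  rw [← hL] at hz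
  -- the height of the zero
  obtain ⟨y, hy⟩ : ∃ y : ℝ, y = s.im := ⟨_, rfl⟩
  rw [← hy] at hs
  obtain ⟨hud, hgam, hl1, hl2, -, hfne⟩ := HU y
  obtain ⟨ℓ, hℓd⟩ : ∃ ℓ : ℝ, ℓ = el N μ y := ⟨_, rfl⟩
  rw [← hℓd] at hud hgam hl1 hl2
  have hG := hud.hG
  have hmv : (m : ℝ) * |y - T| ≤ m * R := mul_le_mul_of_nonneg_left hs (by linarith)
  have h1 : L - c ≤ 2 * ℓ := by
    have h3 := cq_move' hN μ T (y - T)
    rw [add_sub_cancel, ← hL] at h3
    rw [hc]
    linarith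
  have h2 : 2 * ℓ ≤ L + c := by
    have h3 := cq_move hN μ T (y - T)
    rw [add_sub_cancel, ← hL] at h3
    rw [hc]
    linarith
  have hℓ : ℓ0 ≤ ℓ := by linarith
  have hℓa : ℓa ≤ ℓ := ((le_max_left _ _).trans (le_max_left _ _)).trans (hℓ0 ▸ hℓ)
  have hℓb : ℓb ≤ ℓ := ((le_max_right _ _).trans (le_max_left _ _)).trans (hℓ0 ▸ hℓ)
  have hℓc : ℓc ≤ ℓ := ((le_max_left _ _).trans (le_max_right _ _)).trans (hℓ0 ▸ hℓ)
  have hℓE : E1 ≤ ℓ := ((le_max_left _ _).trans ((le_max_right _ _).trans (le_max_right _ _))).trans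
    (hℓ0 ▸ hℓ)
  have hℓ1 : 1 ≤ ℓ := ((le_max_right _ _).trans ((le_max_right _ _).trans (le_max_right _ _))).trans
    (hℓ0 ▸ hℓ)
  rw [hE1, div_le_iff₀ (by positivity)] at hℓE
  obtain ⟨ht1, ht2⟩ := time_cmp hx0 hL0 h1 h2
  have hxc1 : x * c / L ≤ Δ / 2 := by
    rw [div_le_iff₀ hΔ] at hLb
    rw [div_le_iff₀ hL0]
    linarith
  have hxc2 : x * c / L ≤ 1 := by
    rw [div_le_iff₀ hL0]
    linarith
  -- the profile
  have hpf := HP ℓ (GG θ N μ y) (ff N Λ y) hℓc hud (fun u hu _ => hfne u hu)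
  have hpf1 : Pf κ (1 / 2 + ρ) R2 ℓ (GG θ N μ y) (ff N Λ y) :=
    pf_mono hpf (min_le_left _ _) ((le_max_left _ _).trans (le_max_left _ _)) (by linarith) hG.le
  have hpf2 : Pf κ' (1 / 2 + ρ) R3 ℓ (GG θ N μ y) (ff N Λ y) :=
    pf_mono hpf (min_le_right _ _) ((le_max_right _ _).trans (le_max_left _ _)) (by linarith) hG.le
  have hmaj : Mj κ (1 / 2 + ρ) (2 * μ0) ℓ (GG θ N μ y) (ff N Λ y) := by
    refine HM ℓ (GG θ N μ y) (ff N Λ y) (fun u => LL N μ Λ (1 / 2 + y * I + u))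
      (fun u => gaf N μ (1 / 2 + y * I + u)) hℓb hud hpf2 ?_ (fun u => rfl) ?_ ?_ ?_
    · have hd : Differentiable ℂ (LL N μ Λ) := by
        unfold LL
        refine hCl.slow.1.mul ?_
        have hN0 : (N : ℂ) ≠ 0 := by
          have : N ≠ 0 := by linarith
          exact_mod_cast this
        have e : (fun s : ℂ => (gaf N μ s)⁻¹) =
            fun s : ℂ => (N : ℂ) ^ (-(s / 2)) * ∏ j, (Gammaℝ (s - μ j))⁻¹ := by
          funext s
          unfold gaf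
          rw [mul_inv, Finset.prod_inv_distrib, Complex.cpow_neg]
        rw [e]
        refine Differentiable.mul (fun z => ?_) ?_
        · exact ((((hasDerivAt_id z).div_const 2).neg).const_cpow (c := (N : ℂ))
            (Or.inl hN0)).differentiableAt
        · refine Differentiable.fun_finsetProd fun j _ => ?_
          exact differentiable_Gammaℝ_inv.comp (differentiable_id.sub_const _)
      exact hd.comp (by fun_prop)
    · intro u hu
      obtain ⟨h3, -⟩ := hgam u hu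
      rw [norm_inv]
      have h4 : 0 < GG θ N μ y * Real.exp (ℓ * u.re - K * (1 + ‖u‖ ^ 2)) := by positivity
      refine (inv_anti₀ h4 h3).trans (le_of_eq ?_)
      rw [mul_inv, ← Real.exp_neg]
      congr 2
      ring
    · intro u hu
      obtain ⟨h3, h4⟩ := hgam u (by linarith)
      refine ⟨fun h0 => ?_, h4⟩
      rw [h0, norm_zero] at h3
      have h5 : 0 < GG θ N μ y * Real.exp (ℓ * u.re - K * (1 + ‖u‖ ^ 2)) := by positivity
      linarith
    · intro v hv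
      have h3 := hbd ε1 hε1 (y + v)
      have e : (1 / 2 + ((y + v : ℝ) : ℂ) * I) = 1 / 2 + y * I + (v : ℂ) * I := by push_cast; ring
      rw [e] at h3
      refine h3.trans ?_
      have h4 := cq_move hN μ y v
      have h5 : 0 < cq N μ (y + v) := lt_of_lt_of_le (by linarith) (le_cq hN μ (y + v))
      have hmax : 0 < max (Cb ε1) 1 := lt_of_lt_of_le one_pos (le_max_right _ _)
      calc Cb ε1 * cq N μ (y + v) ^ (μ0 + ε1)
          ≤ max (Cb ε1) 1 * cq N μ (y + v) ^ (μ0 + ε1) :=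
            mul_le_mul_of_nonneg_right (le_max_left _ _) (Real.rpow_nonneg h5.le _)
        _ = Real.exp (Real.log (max (Cb ε1) 1) + Real.log (cq N μ (y + v)) * (μ0 + ε1)) := by
            rw [Real.exp_add, Real.exp_log hmax, Real.rpow_def_of_pos h5]
        _ ≤ Real.exp (ℓ * (2 * μ0) + κ' * ℓ) := by
            apply Real.exp_le_exp.2
            have h6 : (m : ℝ) * |v| ≤ m * |R3| :=
              mul_le_mul_of_nonneg_left (hv.trans (le_abs_self _)) (by linarith)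
            have h7 : Real.log (cq N μ (y + v)) ≤ 2 * ℓ + (15 * m + m * |R3|) := by linarith
            have h8 : Real.log (cq N μ (y + v)) * (μ0 + ε1) ≤
                (2 * ℓ + (15 * m + m * |R3|)) * (μ0 + ε1) :=
              mul_le_mul_of_nonneg_right h7 (by linarith)
            have h9 : (15 * m + m * |R3|) * (μ0 + ε1) ≤ (15 * m + m * |R3|) * 1 :=
              mul_le_mul_of_nonneg_left (by linarith) (by positivity)
            have h10 : ε1 * ℓ ≤ κ' / 8 * ℓ := mul_le_mul_of_nonneg_right hε1a (by linarith)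
            have h11 : 0 < κ' * ℓ := by positivity
            linarith
  -- the zero
  have ht0 : 0 < x / L := by positivity
  have hfw := HF ℓ (GG θ N μ y) (x / L) (ff N Λ y) hℓa hud hpf1 hmaj ht0 ?_ (by linarith)
  · have hdb := (db_all 1 (XX N Λ) hCl hne (x / L) ht0.le).2
    have hre1 : s.re ≤ 3 / 2 := by
      have := hdb.zer s hz
      linarith
    have hre2 : -(1 / 2) ≤ s.re := by
      obtain ⟨w, hw1, hw2⟩ := hdb.fe
      have h3 := hw2 s
      rw [hz] at h3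
      have h4 : heat (x / L) (XX N Λ) (1 - conj s) = 0 := by
        have hw0 : w ≠ 0 := by
          intro h
          rw [h, norm_zero] at hw1
          norm_num at hw1
        have h5 := (mul_eq_zero.1 h3.symm).resolve_left hw0
        exact (map_eq_zero _).1 h5
      have h5 := hdb.zer _ h4
      simp at h5
      linarith
    by_contra hcon
    have hx' : s.re - 1 / 2 ≠ 0 := fun h => hcon (by linarith)
    refine hfw (s.re - 1 / 2) hx' (abs_le.2 ⟨by linarith, by linarith⟩) ?_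
    have h3 : heat (x / L) (ff N Λ y) ((s.re - 1 / 2 : ℝ) : ℂ) =
        heat (x / L) (XX N Λ) (1 / 2 + y * I + ((s.re - 1 / 2 : ℝ) : ℂ)) :=
      heat_shift (x / L) (XX N Λ) (1 / 2 + y * I) _
    rw [h3, ← hz]
    congr 1
    apply Complex.ext
    · simp
    · simp [hy]
  · have h3 : 2 * (1 / 2 + ρ) ^ 2 + ρ ≤ 1 / 2 + Δ / 2 := by
      have h8 : ρ * ρ ≤ 1 / 16 * ρ := mul_le_mul_of_nonneg_right hρ1 hρ.le
      have h9 : 2 * (1 / 2 + ρ) ^ 2 + ρ = 1 / 2 + 3 * ρ + 2 * (ρ * ρ) := by ring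
      rw [h9]
      linarith
    have h4 : (1 - 2 * μ0) * (2 * (x / L) * ℓ) ≤ (2 * (1 / 2 + ρ) - 2 * μ0) * (2 * (x / L) * ℓ) := by
      apply mul_le_mul_of_nonneg_right _ (by positivity)
      linarith
    have h5 : (1 - 2 * μ0) * (x - x * c / L) ≤ (1 - 2 * μ0) * (2 * (x / L) * ℓ) :=
      mul_le_mul_of_nonneg_left ht1 (by linarith)
    have h6 : (1 - 2 * μ0) * (x * c / L) ≤ 1 * (x * c / L) :=
      mul_le_mul_of_nonneg_right (by linarith) (by positivity)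
    have h7 : (1 - 2 * μ0) * (x - x * c / L) = Δ + 1 / 2 - (1 - 2 * μ0) * (x * c / L) := by rw [hΔd]; ring
    linarith

end Pool.Agent.V7H89.GL
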