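import Pool.Agent.V7H89.GL.Line

/-!
# The law: few zeros of the heat flow and the size of the L-function
-/

set_option autoImplicit false

open Complex Set MeasureTheory Filter Topology
open scoped ComplexConjugate

namespace Pool.Agent.V7H89.GL

open Pool.Agent.W169.HF H353.E H353.F

variable {m : ℕ}

/-- multiplicities and translations -/
lemma ord_shift (F : ℂ → ℂ) (a u : ℂ) :
    analyticOrderNatAt (fun z => F (a + z)) u = analyticOrderNatAt F (a + u) := by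
  have hd : HasDerivAt (fun w : ℂ => a + w) 1 u := (hasDerivAt_id u).const_add a
  have ha : AnalyticAt ℂ (fun w : ℂ => a + w) u := by fun_prop
  have h := analyticOrderAt_comp_of_deriv_ne_zero (f := F) ha (by rw [hd.deriv]; exact one_ne_zero)
  unfold analyticOrderNatAt
  rw [← h]
  rfl

lemma cnt_shift {F : ℂ → ℂ} {a : ℂ} {A B : Set ℂ} {c : ℝ} (h : Cnt F A c)
    (hAB : ∀ u ∈ B, F (a + u) = 0 → a + u ∈ A) : Cnt (fun z => F (a + z)) B c := by
  intro S hS
  classical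
  have h1 := h (S.image (fun u => a + u)) (by
    intro z hz
    obtain ⟨u, hu, rfl⟩ := Finset.mem_image.1 hz
    obtain ⟨h2, h3⟩ := hS u hu
    exact ⟨h2, hAB u h3 h2⟩)
  rw [Finset.sum_image (fun u _ v _ huv => add_left_cancel huv)] at h1
  refine le_trans (le_of_eq ?_) h1
  exact Finset.sum_congr rfl fun u _ => by rw [ord_shift]

lemma cnt_mono {F : ℂ → ℂ} {A B : Set ℂ} {c d : ℝ} (h : Cnt F A c) (hAB : B ⊆ A) (hcd : c ≤ d) :
    Cnt F B d := fun S hS => (h S fun z hz => ⟨(hS z hz).1, hAB (hS z hz).2⟩).trans hcd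

lemma heat_ff (t N : ℝ) (Λ : ℂ → ℂ) (y : ℝ) :
    heat t (ff N Λ y) = fun u => heat t (XX N Λ) (1 / 2 + y * I + u) := by
  funext u
  exact heat_shift t (XX N Λ) (1 / 2 + y * I) u

/-- the exponent -/
noncomputable def phi (x r : ℝ) : ℝ := max (x - r) 0 ^ 2 / (2 * x)

lemma phi_nonneg {x r : ℝ} (hx : 0 < x) : 0 ≤ phi x r := by unfold phi; positivity

lemma phx_eq (x r : ℝ) : phx x r = r + phi x r := rfl

lemma phi_lip {x τ r : ℝ} (hx : 0 < x) (hτ : 0 < τ) (hr : 0 ≤ r) : phi τ r ≤ phi x r + |τ - x| / 2 := by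
  unfold phi
  rcases le_or_gt τ r with h | h
  · rw [max_eq_right (by linarith : τ - r ≤ 0)]
    have : 0 ≤ max (x - r) 0 ^ 2 / (2 * x) := by positivity
    have := abs_nonneg (τ - x)
    simp
    linarith
  rw [max_eq_left (by linarith : 0 ≤ τ - r)]
  rcases le_or_gt x r with hxr | hxr
  · rw [max_eq_right (by linarith : x - r ≤ 0), abs_of_nonneg (by linarith)]
    simp only [ne_eq, OfNat.ofNat_ne_zero, not_false_eq_true, zero_pow, zero_div, zero_add]
    rw [div_le_div_iff₀ (by positivity) (by norm_num)]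
    nlinarith
  rw [max_eq_left (by linarith : 0 ≤ x - r)]
  rcases le_or_gt τ x with hτx | hτx
  · have h1 : (τ - r) ^ 2 / (2 * τ) ≤ (x - r) ^ 2 / (2 * x) := by
      rw [div_le_div_iff₀ (by positivity) (by positivity)]
      have h2 : r ^ 2 ≤ x * τ := by nlinarith
      nlinarith [mul_nonneg (sub_nonneg.2 hτx) (sub_nonneg.2 h2)]
    have := abs_nonneg (τ - x)
    linarith
  · rw [abs_of_nonneg (by linarith)]
    have e : (x - r) ^ 2 / (2 * x) + (τ - x) / 2 - (τ - r) ^ 2 / (2 * τ) =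
        (τ - x) * r ^ 2 / (2 * x * τ) := by
      field_simp
      ring
    have : 0 ≤ (τ - x) * r ^ 2 / (2 * x * τ) := by
      have : 0 ≤ τ - x := by linarith
      positivity
    linarith

/-- few zeros give the bound -/
theorem bound_of_few (hm : 1 ≤ m) {θ : ℝ} (hθ0 : 0 ≤ θ) (hθ : θ < 1 / 2) {x r κ : ℝ} (hx : 0 < x)
    (hr0 : 0 ≤ r) (hr1 : r ≤ 1) (hκ : 0 < κ) (Qf : ℝ → ℝ → ℝ → ℝ) :
    ∃ C : ℝ, 0 < C ∧ ∀ (N : ℝ) (μ : Fin m → ℂ) (α : Fin m → ℕ → ℂ) (ε : ℂ) (Λ : ℂ → ℂ),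
      Dat θ N μ α ε Λ →
      (∀ η ε R : ℝ, 0 < η → 0 < ε → 0 < R → ∀ T : ℝ, Qf η ε R ≤ cq N μ T →
        Cnt (heat (x / Real.log (cq N μ T)) (XX N Λ)) {s : ℂ | 1 / 2 + η ≤ s.re ∧ |s.im - T| ≤ R}
          (ε * Real.log (cq N μ T))) →
      ∀ y : ℝ, ‖LL N μ Λ (1 / 2 + y * I + r)‖ ≤ C * cq N μ y ^ (phi x r / 2 + κ) := by
  have hm' : (1 : ℝ) ≤ m := by exact_mod_cast hm
  obtain ⟨K, hK, HB⟩ := base hm hθ0 hθ
  obtain ⟨κ1, R, ℓ0, hκ1, hR, HS⟩ := size_of_few K (1 + θ) (x / 2) (x + 1) κ hK (by linarith) (by linarith)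
    (by positivity) (by linarith) hκ
  obtain ⟨c, hc⟩ : ∃ c : ℝ, c = 15 * (m : ℝ) := ⟨_, rfl⟩
  have hc0 : 0 < c := by rw [hc]; positivity
  obtain ⟨L0, hL0⟩ : ∃ L0 : ℝ, L0 = max (max (2 * |ℓ0| + c) (2 * c)) (max (max (2 * x * c) (2 * c))
    (Real.log (max (Qf κ1 (κ1 / 4) R) 1))) := ⟨_, rfl⟩
  have hφ := phi_nonneg (r := r) hx
  refine ⟨Real.exp (max (c * phi x r + x * c + κ * c + 4 * K) ((L0 + 2 * c) * 2 + 4 * K)),
    Real.exp_pos _, ?_⟩
  intro N μ α ε Λ D hfew y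
  have hN := D.d.one_le
  obtain ⟨hCl, hne, HU⟩ := HB N μ α ε Λ D
  obtain ⟨hud, hgam, hl1, hl2, hc1, hfne⟩ := HU y
  obtain ⟨ℓ, hℓd⟩ : ∃ ℓ : ℝ, ℓ = el N μ y := ⟨_, rfl⟩
  rw [← hℓd] at hud hgam hl1 hl2
  have hG := hud.hG
  obtain ⟨L, hL⟩ : ∃ L : ℝ, L = Real.log (cq N μ y) := ⟨_, rfl⟩
  have hcnd0 : 0 < cq N μ y := by linarith
  have hLnn : 0 ≤ L := by rw [hL]; exact Real.log_nonneg hc1
  have hpow : cq N μ y ^ (phi x r / 2 + κ) = Real.exp (L * (phi x r / 2 + κ)) := by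
    rw [Real.rpow_def_of_pos hcnd0, ← hL]
  rw [hpow, ← Real.exp_add]
  rw [← hL, ← hc] at hl1 hl2
  have hrn : ‖(r : ℂ)‖ ^ 2 ≤ 1 := by
    rw [Complex.norm_real, Real.norm_eq_abs, sq_abs]
    nlinarith
  have hrre : ((r : ℂ)).re = r := Complex.ofReal_re r
  have hKr : K * (1 + ‖(r : ℂ)‖ ^ 2) ≤ 2 * K := by nlinarith
  obtain ⟨hg1, -⟩ := hgam r (by rw [hrre]; exact hr0)
  rcases le_or_gt L0 L with hLL | hLL
  · -- large conductor
    have hL1 : 2 * |ℓ0| + c ≤ L := ((le_max_left _ _).trans (le_max_left _ _)).trans (hL0 ▸ hLL)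
    have hL2 : 2 * c ≤ L := ((le_max_right _ _).trans (le_max_left _ _)).trans (hL0 ▸ hLL)
    have hL3 : 2 * x * c ≤ L := ((le_max_left _ _).trans ((le_max_left _ _).trans (le_max_right _ _))).trans
      (hL0 ▸ hLL)
    have hL4 : Real.log (max (Qf κ1 (κ1 / 4) R) 1) ≤ L :=
      ((le_max_right _ _).trans (le_max_right _ _)).trans (hL0 ▸ hLL)
    have hQ : Qf κ1 (κ1 / 4) R ≤ cq N μ y := by
      rw [hL, Real.log_le_log_iff (lt_of_lt_of_le one_pos (le_max_right _ _)) hcnd0] at hL4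
      exact (le_max_left _ _).trans hL4
    have hLpos : 0 < L := by linarith
    have hℓ : ℓ0 ≤ ℓ := by linarith [le_abs_self ℓ0]
    have hℓpos : 0 < ℓ := by linarith
    obtain ⟨ht1, ht2⟩ := time_cmp hx hLpos hl1 hl2
    have hxc : x * c / L ≤ x / 2 := by
      rw [div_le_iff₀ hLpos]
      nlinarith
    have hxc1 : x * c / L ≤ 1 := by
      rw [div_le_iff₀ hLpos]
      linarith
    have hcnt := hfew κ1 (κ1 / 4) R hκ1 (by positivity) (by linarith) y hQ
    rw [← hL] at hcnt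
    have hcnt2 : Cnt (heat (x / L) (ff N Λ y)) {z : ℂ | κ1 ≤ z.re ∧ z.re ≤ R ∧ |z.im| ≤ R} (κ1 * ℓ) := by
      rw [heat_ff]
      refine cnt_mono (cnt_shift hcnt (B := {z : ℂ | κ1 ≤ z.re ∧ z.re ≤ R ∧ |z.im| ≤ R}) ?_)
        (fun _ h => h) ?_
      · rintro u ⟨h1, h2, h3⟩ -
        refine ⟨by simp; linarith, ?_⟩
        have e : (1 / 2 + (y : ℂ) * I + u).im - y = u.im := by simp
        rw [e]
        exact h3
      · have : κ1 / 4 * L = κ1 * (L / 4) := by ring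
        rw [this]
        exact mul_le_mul_of_nonneg_left (by linarith) hκ1.le
    have hsz := HS ℓ (GG θ N μ y) (x / L) (ff N Λ y) hℓ hud (by positivity) (by linarith) (by linarith)
      hcnt2 r hr0 hr1
    have hLLn := LL_norm hG hg1 hsz
    refine hLLn.trans (Real.exp_le_exp.2 ?_)
    refine le_trans ?_ (add_le_add (le_max_left _ _) le_rfl)
    rw [hrre, phx_eq]
    have hτ : 0 < 2 * (x / L) * ℓ := by positivity
    have hlip := phi_lip hx hτ hr0
    have habs : |2 * (x / L) * ℓ - x| ≤ x * c / L := abs_le.2 ⟨by linarith, by linarith⟩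
    have h1 : ℓ * phi (2 * (x / L) * ℓ) r ≤ ℓ * (phi x r + x * c / L / 2) :=
      mul_le_mul_of_nonneg_left (by linarith) hℓpos.le
    have h2 : ℓ * (x * c / L) ≤ x * c := by
      have h3 : ℓ ≤ L := by linarith
      calc ℓ * (x * c / L) ≤ L * (x * c / L) := mul_le_mul_of_nonneg_right h3 (by positivity)
        _ = x * c := by field_simp
    have h3 : ℓ * phi x r ≤ (L + c) / 2 * phi x r := mul_le_mul_of_nonneg_right (by linarith) hφ
    have h4 : κ * ℓ ≤ κ * ((L + c) / 2) := mul_le_mul_of_nonneg_left (by linarith) hκ.le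
    have h5 : 0 ≤ c * phi x r := by positivity
    have h6 : 0 ≤ κ * c := by positivity
    have h7 : 0 ≤ κ * L := by positivity
    have h8 : 0 ≤ x * c := by positivity
    generalize phi (2 * (x / L) * ℓ) r = P at h1 hlip ⊢
    have h9 : ℓ * (phi x r + x * c / L / 2) = ℓ * phi x r + ℓ * (x * c / L) / 2 := by ring
    rw [h9] at h1
    have h10 : ℓ * (r + P) + κ * ℓ - ℓ * r = ℓ * P + κ * ℓ := by ring
    rw [h10]
    linarith
  · -- small conductor
    have hup := hud.up r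
    have habs : |((r : ℂ)).re| = r := by rw [hrre, abs_of_nonneg hr0]
    rw [habs, max_eq_right (by linarith : r ≤ 1 + θ)] at hup
    have hLLn := LL_norm hG hg1 hup
    refine hLLn.trans (Real.exp_le_exp.2 ?_)
    rw [hrre]
    have h0 : 0 ≤ L * (phi x r / 2 + κ) := mul_nonneg hLnn (by positivity)
    refine le_trans ?_ (le_add_of_nonneg_right h0)
    refine le_trans ?_ (le_max_right _ _)
    have h1 : ℓ * (1 + θ) - ℓ * r ≤ (L0 + 2 * c) * 2 := by
      have h2 : ℓ * (1 + θ) - ℓ * r = ℓ * (1 + θ - r) := by ring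
      rw [h2]
      rcases le_total 0 ℓ with h | h
      · calc ℓ * (1 + θ - r) ≤ ℓ * 2 := mul_le_mul_of_nonneg_left (by linarith) h
          _ ≤ _ := by nlinarith
      · have h3 : ℓ * (1 + θ - r) ≤ 0 := mul_nonpos_of_nonpos_of_nonneg h (by linarith)
        nlinarith
    linarith

end Pool.Agent.V7H89.GL
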