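import Pool.Agent.W169.HF.DefsB

/-!
# The saddle point lemma (the statement `S_SADL` of project HF of the start library)
-/

set_option autoImplicit false

open Complex MeasureTheory Filter Topology Set Metric

namespace Pool.Agent.V7H89.GL

open Pool.Agent.W169.HF

lemma exp_sub_one_le (z : ℂ) : ‖cexp z - 1‖ ≤ ‖z‖ * Real.exp ‖z‖ := by
  have h := Complex.norm_exp_sub_sum_le_norm_mul_exp z 1
  simpa using h

/-- the integral of a perturbed Gaussian function -/
lemma gauss_low {s a : ℝ} {E : ℝ → ℂ} (hs : 0 < s) (ha : 1 ≤ s * a) (hE : ContinuousOn E (Icc (-a) a))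
    (hEb : ∀ y ∈ Icc (-a) a, ‖E y‖ ≤ 4 / 100000 * (s * y) ^ 2) :
    1 / 2 / s ≤ ‖∫ y in (-a)..a, cexp (-((s * y : ℝ) : ℂ) ^ 2 / 2 + E y)‖ := by
  have ha0 : 0 < a := by
    by_contra h
    push Not at h
    nlinarith
  have haa : -a ≤ a := by linarith
  have hI1 : IntervalIntegrable (fun y : ℝ => cexp (-((s * y : ℝ) : ℂ) ^ 2 / 2 + E y)) volume (-a) a := by
    apply ContinuousOn.intervalIntegrable
    rw [uIcc_of_le haa]
    apply ContinuousOn.cexp
    apply ContinuousOn.add _ hE
    fun_prop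
  have hI2 : IntervalIntegrable (fun y : ℝ => cexp (-((s * y : ℝ) : ℂ) ^ 2 / 2)) volume (-a) a := by
    apply Continuous.intervalIntegrable
    fun_prop
  have hsplit : ∫ y in (-a)..a, cexp (-((s * y : ℝ) : ℂ) ^ 2 / 2 + E y) =
      (∫ y in (-a)..a, cexp (-((s * y : ℝ) : ℂ) ^ 2 / 2)) +
      ∫ y in (-a)..a, (cexp (-((s * y : ℝ) : ℂ) ^ 2 / 2 + E y) - cexp (-((s * y : ℝ) : ℂ) ^ 2 / 2)) := by
    rw [← intervalIntegral.integral_add hI2 (hI1.sub hI2)]
    congr 1
    ext y
    ring
  -- the error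
  have herr : ‖∫ y in (-a)..a, (cexp (-((s * y : ℝ) : ℂ) ^ 2 / 2 + E y) -
      cexp (-((s * y : ℝ) : ℂ) ^ 2 / 2))‖ ≤ 1 / 100 / s := by
    have hb : ∀ y ∈ Icc (-a) a, ‖cexp (-((s * y : ℝ) : ℂ) ^ 2 / 2 + E y) -
        cexp (-((s * y : ℝ) : ℂ) ^ 2 / 2)‖ ≤ 4 / 10000 * Real.exp (-(s ^ 2 / 8) * y ^ 2) := by
      intro y hy
      have h1 := hEb y hy
      set x : ℝ := (s * y) ^ 2 with hx
      have hx0 : 0 ≤ x := sq_nonneg _
      have e1 : cexp (-((s * y : ℝ) : ℂ) ^ 2 / 2 + E y) - cexp (-((s * y : ℝ) : ℂ) ^ 2 / 2) =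
          cexp (-((s * y : ℝ) : ℂ) ^ 2 / 2) * (cexp (E y) - 1) := by
        rw [Complex.exp_add]; ring
      have e2 : ‖cexp (-((s * y : ℝ) : ℂ) ^ 2 / 2)‖ = Real.exp (-x / 2) := by
        rw [Complex.norm_exp]
        congr 1
        rw [show (-((s * y : ℝ) : ℂ) ^ 2 / 2) = ((-x / 2 : ℝ) : ℂ) by rw [hx]; push_cast; ring]
        exact Complex.ofReal_re _
      rw [e1, norm_mul, e2]
      have h2 : ‖cexp (E y) - 1‖ ≤ 4 / 100000 * x * Real.exp (x / 4) := by
        refine (exp_sub_one_le _).trans ?_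
        have : Real.exp ‖E y‖ ≤ Real.exp (x / 4) := Real.exp_le_exp.2 (by nlinarith)
        exact mul_le_mul h1 this (Real.exp_pos _).le (by positivity)
      have h3 : x / 8 * Real.exp (-(x / 8)) ≤ 1 := by
        have := Real.add_one_le_exp (x / 8)
        rw [Real.exp_neg]
        rw [← div_eq_mul_inv, div_le_one (Real.exp_pos _)]
        linarith
      have e3 : Real.exp (-(s ^ 2 / 8) * y ^ 2) = Real.exp (-(x / 8)) := by
        congr 1; rw [hx]; ring
      rw [e3]
      calc Real.exp (-x / 2) * ‖cexp (E y) - 1‖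
          ≤ Real.exp (-x / 2) * (4 / 100000 * x * Real.exp (x / 4)) :=
            mul_le_mul_of_nonneg_left h2 (Real.exp_pos _).le
        _ = 4 / 100000 * 8 * (x / 8 * Real.exp (-(x / 8))) * Real.exp (-(x / 8)) := by
            rw [show -x / 2 = -(x / 8) + -(x / 8) + -(x / 4) by ring, Real.exp_add, Real.exp_add]
            have : Real.exp (-(x / 4)) * Real.exp (x / 4) = 1 := by rw [← Real.exp_add]; simp
            linear_combination (4 / 100000 * x * Real.exp (-(x / 8)) * Real.exp (-(x / 8))) * this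
        _ ≤ 4 / 100000 * 8 * 1 * Real.exp (-(x / 8)) := by gcongr
        _ ≤ 4 / 10000 * Real.exp (-(x / 8)) := by nlinarith [Real.exp_pos (-(x / 8))]
    have hg : Integrable (fun y : ℝ => 4 / 10000 * Real.exp (-(s ^ 2 / 8) * y ^ 2)) :=
      (integrable_exp_neg_mul_sq (by positivity)).const_mul _
    calc ‖∫ y in (-a)..a, (cexp (-((s * y : ℝ) : ℂ) ^ 2 / 2 + E y) -
        cexp (-((s * y : ℝ) : ℂ) ^ 2 / 2))‖
        ≤ ∫ y in (-a)..a, 4 / 10000 * Real.exp (-(s ^ 2 / 8) * y ^ 2) := by
          apply intervalIntegral.norm_integral_le_of_norm_le haa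
          · filter_upwards with y hy
            exact hb y ⟨hy.1.le, hy.2⟩
          · exact hg.intervalIntegrable
      _ ≤ ∫ y : ℝ, 4 / 10000 * Real.exp (-(s ^ 2 / 8) * y ^ 2) := by
          rw [intervalIntegral.integral_of_le haa]
          exact setIntegral_le_integral hg (Eventually.of_forall fun y => by positivity)
      _ = 4 / 10000 * Real.sqrt (Real.pi / (s ^ 2 / 8)) := by
          rw [integral_const_mul, integral_gaussian]
      _ ≤ 4 / 10000 * (6 / s) := by
          gcongr
          rw [Real.sqrt_le_left (by positivity), div_pow, div_div_eq_mul_div]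
          have := Real.pi_lt_four
          gcongr
          linarith
      _ ≤ 1 / 100 / s := by
          rw [mul_div_assoc', div_div, div_le_div_iff₀ hs (by positivity)]
          nlinarith
  -- the main term
  have hmain : 1 / s ≤ ‖∫ y in (-a)..a, cexp (-((s * y : ℝ) : ℂ) ^ 2 / 2)‖ := by
    have e1 : ∀ y : ℝ, cexp (-((s * y : ℝ) : ℂ) ^ 2 / 2) = ((Real.exp (-(s * y) ^ 2 / 2) : ℝ) : ℂ) := by
      intro y
      push_cast
      rfl
    simp_rw [e1]
    rw [intervalIntegral.integral_ofReal, Complex.norm_real]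
    refine le_trans ?_ (le_abs_self _)
    have h1s : 1 / s ≤ a := by rw [div_le_iff₀ hs]; linarith
    have hcont : Continuous (fun y : ℝ => Real.exp (-(s * y) ^ 2 / 2)) := by fun_prop
    have hle : ∫ y in (-(1 / s))..(1 / s), Real.exp (-(s * y) ^ 2 / 2) ≤
        ∫ y in (-a)..a, Real.exp (-(s * y) ^ 2 / 2) := by
      apply intervalIntegral.integral_mono_interval (by linarith) (by linarith [show 0 < 1 / s by positivity])
        h1s
      · exact Eventually.of_forall fun y => (Real.exp_pos _).le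
      · exact hcont.intervalIntegrable _ _
    refine le_trans ?_ hle
    have h2 : ∫ y in (-(1 / s))..(1 / s), (1 / 2 : ℝ) ≤
        ∫ y in (-(1 / s))..(1 / s), Real.exp (-(s * y) ^ 2 / 2) := by
      apply intervalIntegral.integral_mono_on (by linarith [show 0 < 1 / s by positivity])
        (by simp) (hcont.intervalIntegrable _ _)
      intro y hy
      have h3 : (s * y) ^ 2 ≤ 1 := by
        have : |s * y| ≤ 1 := by
          rw [abs_mul, abs_of_pos hs]
          have : |y| ≤ 1 / s := abs_le.2 ⟨hy.1, hy.2⟩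
          calc s * |y| ≤ s * (1 / s) := by gcongr
            _ = 1 := by field_simp
        rw [← sq_abs]
        exact pow_le_one₀ (abs_nonneg _) this
      have h4 : Real.exp (-1 / 2) ≤ Real.exp (-(s * y) ^ 2 / 2) := Real.exp_le_exp.2 (by linarith)
      have h5 := Real.add_one_le_exp (-1 / 2 : ℝ)
      linarith
    refine le_trans (le_of_eq ?_) h2
    rw [intervalIntegral.integral_const, smul_eq_mul]
    ring
  rw [hsplit]
  have h1 := norm_sub_le_norm_add (∫ y in (-a)..a, cexp (-((s * y : ℝ) : ℂ) ^ 2 / 2))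
    (∫ y in (-a)..a, (cexp (-((s * y : ℝ) : ℂ) ^ 2 / 2 + E y) - cexp (-((s * y : ℝ) : ℂ) ^ 2 / 2)))
  refine le_trans ?_ h1
  have h2 : 1 / 2 / s ≤ 1 / s - 1 / 100 / s := by
    rw [← sub_div]
    gcongr
    norm_num
  linarith

/-- the saddle point lemma -/
theorem sad : S_SADL := by
  intro F p μ ρ s θ hρ hρ2 hs hsρ hθ hθρ hL
  have hs0 : 0 < s := by linarith
  have hsC : (s : ℂ) ≠ 0 := by exact_mod_cast hs0.ne'
  set D : ℂ → ℂ := fun w => (logDeriv F w - μ) / (s : ℂ) ^ 2 with hD
  have hDb : ∀ w ∈ ball p ρ, ‖D w‖ ≤ θ := by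
    intro w hw
    rw [hD]
    simp only [norm_div, norm_pow, Complex.norm_real, Real.norm_eq_abs, sq_abs]
    rw [div_le_iff₀ (by positivity)]
    exact (hL w hw).2.2
  have hFd : DifferentiableOn ℂ F (ball p ρ) := fun w hw => (hL w hw).1.differentiableWithinAt
  have hDd : DifferentiableOn ℂ D (ball p ρ) := by
    have h1 : DifferentiableOn ℂ (deriv F) (ball p ρ) := hFd.deriv isOpen_ball
    have h2 : DifferentiableOn ℂ (fun w => deriv F w / F w) (ball p ρ) :=
      h1.div hFd fun w hw => (hL w hw).2.1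
    exact (h2.sub_const μ).div_const _
  have hDa : ∀ w ∈ ball p ρ, DifferentiableAt ℂ D w := fun w hw =>
    hDd.differentiableAt (isOpen_ball.mem_nhds hw)
  -- the Lipschitz bound
  have hder : ∀ w ∈ closedBall p (ρ / 2), ‖deriv D w‖ ≤ θ / (ρ / 4) := by
    intro w hw
    apply Complex.norm_deriv_le_of_forall_mem_sphere_norm_le (by positivity)
    · apply DifferentiableOn.diffContOnCl
      rw [closure_ball _ (by positivity)]
      refine hDd.mono ?_
      intro z hz
      rw [mem_closedBall] at hw hz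
      rw [mem_ball]
      have := dist_triangle z w p
      linarith
    · intro z hz
      apply hDb
      rw [mem_closedBall] at hw
      rw [mem_sphere] at hz
      rw [mem_ball]
      have := dist_triangle z w p
      linarith
  have hε : θ / (ρ / 4) ≤ 4 / 100000 := by
    rw [div_le_iff₀ (by positivity)]
    linarith
  have hlip : ∀ w ∈ closedBall p (ρ / 2), ∀ z ∈ closedBall p (ρ / 2), ‖D z - D w‖ ≤ 4 / 100000 * ‖z - w‖ := by
    intro w hw z hz
    have h1 := Convex.norm_image_sub_le_of_norm_deriv_le (f := D) (C := θ / (ρ / 4))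
      (s := closedBall p (ρ / 2)) (x := w) (y := z)
      (fun x hx => hDa x (closedBall_subset_ball (by linarith) hx)) hder (convex_closedBall _ _) hw hz
    exact h1.trans (mul_le_mul_of_nonneg_right hε (norm_nonneg _))
  have hθρ2 : θ ≤ ρ / 2 := by linarith
  -- the fixed point
  obtain ⟨w0, hw0, hfix⟩ : ∃ w0 ∈ closedBall p θ, p + D w0 = w0 := by
    have hmaps : MapsTo (fun w => p + D w) (closedBall p θ) (closedBall p θ) := by
      intro w hw
      show p + D w ∈ closedBall p θ
      rw [mem_closedBall, dist_eq_norm, add_sub_cancel_left]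
      exact hDb w (closedBall_subset_ball (by linarith) hw)
    have hcon : ContractingWith (1 / 2 : NNReal) (hmaps.restrict (fun w => p + D w) _ _) := by
      refine ⟨by
        rw [← NNReal.coe_lt_coe]
        push_cast
        norm_num, ?_⟩
      apply LipschitzWith.of_dist_le_mul
      intro x y
      rw [Subtype.dist_eq, Subtype.dist_eq]
      simp only [MapsTo.val_restrict_apply]
      rw [dist_eq_norm, dist_eq_norm, add_sub_add_left_eq_sub]
      refine (hlip y (closedBall_subset_closedBall hθρ2 y.2) x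
        (closedBall_subset_closedBall hθρ2 x.2)).trans ?_
      apply mul_le_mul_of_nonneg_right _ (norm_nonneg _)
      push_cast
      norm_num
    obtain ⟨y, hy, hfy, -⟩ := hcon.exists_fixedPoint' (isClosed_closedBall (x := p) (ε := θ)).isComplete hmaps
      (x := p) (mem_closedBall_self hθ.le) (edist_ne_top _ _)
    exact ⟨y, hy, hfy⟩
  have hw0p : ‖w0 - p‖ ≤ θ := by
    rw [mem_closedBall, dist_eq_norm] at hw0
    exact hw0
  -- the exponent
  obtain ⟨g, hg⟩ := hDd.isExactOn_ball
  set E : ℂ → ℂ := fun w => (s : ℂ) ^ 2 * (g w - g w0 - D w0 * (w - w0)) with hE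
  have hEd : ∀ w ∈ ball p ρ, HasDerivAt E ((s : ℂ) ^ 2 * (D w - D w0)) w := by
    intro w hw
    have h1 := ((hg w hw).sub_const (g w0)).sub (((hasDerivAt_id w).sub_const w0).const_mul (D w0))
    have h2 := h1.const_mul ((s : ℂ) ^ 2)
    simpa using h2
  have hE0 : E w0 = 0 := by simp [hE]
  have hball0 : w0 ∈ ball p ρ := closedBall_subset_ball (by linarith) hw0
  have hw02 : w0 ∈ closedBall p (ρ / 2) := closedBall_subset_closedBall hθρ2 hw0
  have hyb : ∀ y : ℝ, |y| ≤ ρ / 5 → w0 + y ∈ closedBall p (ρ / 2) := by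
    intro y hy
    rw [mem_closedBall, dist_eq_norm]
    have : w0 + y - p = (w0 - p) + y := by ring
    rw [this]
    refine (norm_add_le _ _).trans ?_
    rw [Complex.norm_real, Real.norm_eq_abs]
    linarith
  have hEb : ∀ y : ℝ, |y| ≤ ρ / 5 → ‖E (w0 + y)‖ ≤ 4 / 100000 * (s * y) ^ 2 := by
    intro y hy
    have hseg : segment ℝ w0 (w0 + y) ⊆ closedBall p (ρ / 2) :=
      (convex_closedBall p (ρ / 2)).segment_subset hw02 (hyb y hy)
    have hseg2 : ∀ z ∈ segment ℝ w0 (w0 + y), ‖z - w0‖ ≤ |y| := by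
      intro z hz
      obtain ⟨a, b, ha, hb, hab, rfl⟩ := hz
      have : a • w0 + b • (w0 + y) - w0 = (b : ℂ) * y := by
        have ha' : (a : ℂ) = 1 - b := by
          have := congrArg (fun x : ℝ => (x : ℂ)) hab
          push_cast at this
          linear_combination this
        simp only [Complex.real_smul, ha']
        ring
      rw [this, norm_mul, Complex.norm_real, Complex.norm_real, Real.norm_eq_abs, Real.norm_eq_abs,
        abs_of_nonneg hb]
      have : b ≤ 1 := by linarith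
      nlinarith [abs_nonneg y]
    have h1 := Convex.norm_image_sub_le_of_norm_hasDerivWithin_le (f := E)
      (f' := fun w => (s : ℂ) ^ 2 * (D w - D w0)) (C := s ^ 2 * (4 / 100000 * |y|))
      (s := segment ℝ w0 (w0 + y)) (x := w0) (y := w0 + y)
      (fun z hz => (hEd z (closedBall_subset_ball (by linarith) (hseg hz))).hasDerivWithinAt)
      (fun z hz => by
        rw [norm_mul, norm_pow, Complex.norm_real, Real.norm_eq_abs, sq_abs]
        gcongr
        exact (hlip w0 hw02 z (hseg hz)).trans (by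
          have := hseg2 z hz
          linarith))
      (convex_segment _ _) (left_mem_segment _ _ _) (right_mem_segment _ _ _)
    rw [hE0, sub_zero, add_sub_cancel_left, Complex.norm_real, Real.norm_eq_abs] at h1
    refine h1.trans (le_of_eq ?_)
    have : |y| * |y| = y ^ 2 := by rw [← sq, sq_abs]
    linear_combination (4 / 100000 * s ^ 2) * this
  -- the formula
  set q : ℂ → ℂ := Q F s (p - μ / (s : ℂ) ^ 2) with hq
  have hqd : ∀ w ∈ ball p ρ, HasDerivAt q (q w * (-((s : ℂ) ^ 2 * (w - p)) - μ + logDeriv F w)) w := by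
    intro w hw
    have h1 : HasDerivAt (fun w : ℂ => -((s : ℂ) ^ 2 * (w - (p - μ / (s : ℂ) ^ 2)) ^ 2 / 2))
        (-((s : ℂ) ^ 2 * (w - p)) - μ) w := by
      have h2 := (((((hasDerivAt_id' w).sub_const (p - μ / (s : ℂ) ^ 2)).fun_pow 2).const_mul
        ((s : ℂ) ^ 2)).div_const 2).fun_neg
      refine h2.congr_deriv ?_
      simp only [Nat.cast_ofNat, Nat.reduceSub, pow_one, mul_one]
      field_simp
      ring
    have h3 := h1.cexp.fun_mul (hL w hw).1.hasDerivAt
    rw [hq]
    refine h3.congr_deriv ?_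
    show _ = cexp (-((s : ℂ) ^ 2 * (w - (p - μ / (s : ℂ) ^ 2)) ^ 2 / 2)) * F w * _
    have h4 : deriv F w = logDeriv F w * F w := by
      rw [logDeriv_apply, div_mul_cancel₀ _ (hL w hw).2.1]
    rw [h4]
    ring
  have hform : ∀ w ∈ ball p ρ, q w = q w0 * cexp (-((s : ℂ) ^ 2 * (w - w0) ^ 2 / 2) + E w) := by
    intro w hw
    have hdz : ∀ z ∈ ball p ρ, HasDerivAt
        (fun z : ℂ => q z * cexp ((s : ℂ) ^ 2 * (z - w0) ^ 2 / 2 - E z)) 0 z := by
      intro z hz
      have h1 : HasDerivAt (fun z : ℂ => (s : ℂ) ^ 2 * (z - w0) ^ 2 / 2 - E z)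
          ((s : ℂ) ^ 2 * (z - w0) - (s : ℂ) ^ 2 * (D z - D w0)) z := by
        have h2 := (((((hasDerivAt_id' z).sub_const w0).fun_pow 2).const_mul
          ((s : ℂ) ^ 2)).div_const 2).fun_sub (hEd z hz)
        refine h2.congr_deriv ?_
        simp only [Nat.cast_ofNat, Nat.reduceSub, pow_one, mul_one]
        ring
      have h3 := (hqd z hz).fun_mul h1.cexp
      refine h3.congr_deriv ?_
      have e1 : (s : ℂ) ^ 2 * D z = logDeriv F z - μ := by
        rw [hD]; field_simp
      have e2 : D w0 = w0 - p := by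
        rw [← hfix]
        rw [hfix]
        linear_combination hfix
      have e3 : -((s : ℂ) ^ 2 * (z - p)) - μ + logDeriv F z +
          ((s : ℂ) ^ 2 * (z - w0) - (s : ℂ) ^ 2 * (D z - D w0)) = 0 := by
        rw [e2]
        linear_combination -e1
      linear_combination (q z * cexp ((s : ℂ) ^ 2 * (z - w0) ^ 2 / 2 - E z)) * e3
    have hconst := isOpen_ball.is_const_of_deriv_eq_zero (convex_ball p ρ).isPreconnected
      (fun z hz => (hdz z hz).differentiableAt.differentiableWithinAt)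
      (fun z hz => (hdz z hz).deriv) hw hball0
    simp only [hE0, sub_self, ne_eq, OfNat.ofNat_ne_zero, not_false_eq_true, zero_pow, mul_zero,
      zero_div, Complex.exp_zero, mul_one] at hconst
    rw [← hconst, mul_assoc, ← Complex.exp_add]
    rw [show (s : ℂ) ^ 2 * (w - w0) ^ 2 / 2 - E w + (-((s : ℂ) ^ 2 * (w - w0) ^ 2 / 2) + E w) = 0 by ring,
      Complex.exp_zero, mul_one]
  have hform2 : ∀ y : ℝ, |y| ≤ ρ / 5 →
      q (w0 + y) = q w0 * cexp (-((s * y : ℝ) : ℂ) ^ 2 / 2 + E (w0 + y)) := by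
    intro y hy
    rw [hform _ (closedBall_subset_ball (by linarith) (hyb y hy))]
    congr 2
    push_cast
    ring
  refine ⟨w0, hw0p, ?_, ?_⟩
  · intro y hy
    rw [hform2 y hy, norm_mul, mul_comm, Complex.norm_exp]
    apply mul_le_mul_of_nonneg_right _ (norm_nonneg _)
    apply Real.exp_le_exp.2
    rw [Complex.add_re]
    have h1 : (E (w0 + y)).re ≤ 4 / 100000 * (s * y) ^ 2 := (Complex.re_le_norm _).trans (hEb y hy)
    have h2 : (-((s * y : ℝ) : ℂ) ^ 2 / 2).re = -(s * y) ^ 2 / 2 := by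
      rw [show (-((s * y : ℝ) : ℂ) ^ 2 / 2) = ((-(s * y) ^ 2 / 2 : ℝ) : ℂ) by push_cast; ring]
      exact Complex.ofReal_re _
    rw [h2]
    nlinarith [sq_nonneg (s * y)]
  · have hint : ∫ y in (-(ρ / 5) : ℝ)..(ρ / 5), q (w0 + y) =
        q w0 * ∫ y in (-(ρ / 5) : ℝ)..(ρ / 5), cexp (-((s * y : ℝ) : ℂ) ^ 2 / 2 + E (w0 + y)) := by
      rw [← intervalIntegral.integral_const_mul]
      apply intervalIntegral.integral_congr
      intro y hy
      rw [uIcc_of_le (by linarith)] at hy
      exact hform2 y (abs_le.2 hy)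
    show 1 / 2 / s * ‖q w0‖ ≤ ‖∫ y in (-(ρ / 5) : ℝ)..(ρ / 5), q (w0 + y)‖
    rw [hint, norm_mul, mul_comm]
    apply mul_le_mul_of_nonneg_left _ (norm_nonneg _)
    apply gauss_low hs0
    · rw [div_le_iff₀ hρ] at hsρ
      linarith
    · intro y hy
      have h1 : ContinuousAt E (w0 + y) :=
        (hEd _ (closedBall_subset_ball (by linarith) (hyb y (abs_le.2 hy)))).continuousAt
      have h2 : ContinuousAt (fun y : ℝ => w0 + (y : ℂ)) y := by fun_prop
      exact (ContinuousAt.comp (f := fun y : ℝ => w0 + (y : ℂ)) (g := E) h1 h2).continuousWithinAt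
    · intro y hy
      exact hEb y (abs_le.2 hy)

end Pool.Agent.V7H89.GL
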