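import Pool.Agent.W251.HF.Jen
import Pool.Agent.V7H88.BS.A

/-!
# Few zeros imply small values (project GLD of the start library, part TCZ)
-/

set_option autoImplicit false

open Complex Filter Topology Set Metric

namespace Pool.Agent.V7H89.GL

open Pool.Agent.W169.HF

/-- TCZ: three circles with few zeros; `ℓ` is large -/
theorem tcz : ∀ A b ρ κ R1 : ℝ, 0 ≤ A → 1 / 2 ≤ b → b ≤ 3 → 0 < ρ → ρ ≤ 1 → 0 < κ → 1 ≤ R1 →
  ∃ κ1 R ℓ0 : ℝ, 0 < κ1 ∧ R1 ≤ R ∧ ∀ (ℓ H : ℝ) (F : ℂ → ℂ), ℓ0 ≤ ℓ → 0 < H → Differentiable ℂ F →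
    (∀ u : ℂ, 0 ≤ u.re → u.re ≤ R → |u.im| ≤ R → ‖F u‖ ≤ H * Real.exp (ℓ * u.re + A * ℓ)) →
    (∀ u : ℂ, b ≤ u.re → u.re ≤ R → |u.im| ≤ R → H * Real.exp (ℓ * u.re - κ1 * ℓ) ≤ ‖F u‖ ∧
      ‖F u‖ ≤ H * Real.exp (ℓ * u.re + κ1 * ℓ)) →
    Cnt F {z : ℂ | κ1 ≤ z.re ∧ z.re ≤ R ∧ |z.im| ≤ R} (κ1 * ℓ) →
    ∀ u : ℂ, ρ ≤ u.re → u.re ≤ R1 → |u.im| ≤ R1 → ‖F u‖ ≤ H * Real.exp (ℓ * u.re + κ * ℓ) := by
  intro A b ρ κ R1 hA hb hb3 hρ hρ1 hκ hR1
  set N : ℝ := R1 + b + 2 with hN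
  obtain ⟨η, L₀, hη, hL₀, hback⟩ := Pool.Agent.V7H88.BS.backlund (R := N - ρ / 2) (r := N - ρ)
    (l := N - b - 1) (B := A) (ε := κ) (by rw [hN]; linarith) (by linarith) (by linarith) hA hκ
  refine ⟨min η (ρ / 2), R1 + 2 * N, max L₀ 1, lt_min hη (by positivity), by rw [hN]; linarith, ?_⟩
  intro ℓ H F hℓ hH hF hup h2 hcnt u hu1 hu2 hu3
  have hℓ1 : 1 ≤ ℓ := (le_max_right _ _).trans hℓ
  have hℓ0 : 0 < ℓ := by linarith
  have hκ1 : min η (ρ / 2) * ℓ ≤ η * ℓ := mul_le_mul_of_nonneg_right (min_le_left _ _) hℓ0.le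
  set c : ℂ := N + u.im * I with hc
  have hcre : c.re = N := by simp [hc]
  have hcim : c.im = u.im := by simp [hc]
  set g : ℂ → ℂ := fun z => F z * cexp (-(ℓ * z)) / H with hg
  have hHn : ‖(H : ℂ)‖ = H := by rw [Complex.norm_real, Real.norm_of_nonneg hH.le]
  have hH' : (H : ℂ) ≠ 0 := by exact_mod_cast hH.ne'
  have hgn : ∀ z : ℂ, ‖g z‖ = ‖F z‖ * Real.exp (-(ℓ * z.re)) / H := by
    intro z
    rw [hg]
    simp only [norm_div, norm_mul, hHn]
    rw [Pool.Agent.W251.HF.norm_exp_neg]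
  have hgd : Differentiable ℂ g := by rw [hg]; fun_prop
  have hgle : ∀ (z : ℂ) (e : ℝ), ‖F z‖ ≤ H * Real.exp (ℓ * z.re + e) → ‖g z‖ ≤ Real.exp e := by
    intro z e h
    rw [hgn, div_le_iff₀ hH]
    calc ‖F z‖ * Real.exp (-(ℓ * z.re)) ≤ H * Real.exp (ℓ * z.re + e) * Real.exp (-(ℓ * z.re)) :=
          mul_le_mul_of_nonneg_right h (Real.exp_pos _).le
      _ = Real.exp e * H := by
          rw [mul_assoc, ← Real.exp_add, mul_comm]; congr 2; ring
  have hgge : ∀ (z : ℂ) (e : ℝ), H * Real.exp (ℓ * z.re - e) ≤ ‖F z‖ → Real.exp (-e) ≤ ‖g z‖ := by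
    intro z e h
    rw [hgn, le_div_iff₀ hH]
    calc Real.exp (-e) * H = H * Real.exp (ℓ * z.re - e) * Real.exp (-(ℓ * z.re)) := by
          rw [mul_assoc, ← Real.exp_add, mul_comm]; congr 2; ring
      _ ≤ ‖F z‖ * Real.exp (-(ℓ * z.re)) := mul_le_mul_of_nonneg_right h (Real.exp_pos _).le
  -- the discs
  have hball : ∀ (z : ℂ) (x : ℝ), z ∈ closedBall c x → N - x ≤ z.re ∧ z.re ≤ N + x ∧ |z.im| ≤ R1 + x := by
    intro z x hz
    rw [mem_closedBall, dist_eq_norm] at hz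
    have h1 : |(z - c).re| ≤ x := (Complex.abs_re_le_norm _).trans hz
    have h3 : |(z - c).im| ≤ x := (Complex.abs_im_le_norm _).trans hz
    rw [Complex.sub_re, hcre, abs_le] at h1
    rw [Complex.sub_im, hcim] at h3
    have h4 := abs_add_le (z.im - u.im) u.im
    rw [sub_add_cancel] at h4
    exact ⟨by linarith, by linarith, by linarith⟩
  have hb1 : ∀ z : ℂ, b ≤ z.re → z.re ≤ R1 + 2 * N → |z.im| ≤ R1 + 2 * N → ‖g z‖ ≤ Real.exp (η * ℓ) ∧
      Real.exp (-(η * ℓ)) ≤ ‖g z‖ := by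
    intro z h3 h4 h5
    obtain ⟨h6, h7⟩ := h2 z h3 h4 h5
    refine ⟨(hgle z _ h7).trans (Real.exp_le_exp.2 hκ1), le_trans (Real.exp_le_exp.2 ?_) (hgge z _ h6)⟩
    linarith
  have hcF : F c ≠ 0 := by
    intro h0
    have h3 := (hb1 c (by rw [hcre, hN]; linarith) (by rw [hcre, hN]; linarith)
      (by rw [hcim]; rw [hN]; linarith)).2
    rw [hgn, h0, norm_zero, zero_mul, zero_div] at h3
    linarith [Real.exp_pos (-(η * ℓ))]
  have key := hback g c ℓ ((le_max_left _ _).trans hℓ) (fun z _ => hgd.analyticAt z)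
    (fun z hz => by
      obtain ⟨h3, h4, h5⟩ := hball z _ hz
      exact hgle z _ (hup z (by linarith) (by rw [hN] at *; linarith) (by rw [hN] at *; linarith)))
    (fun z hz => by
      obtain ⟨h3, h4, h5⟩ := hball z _ hz
      exact (hb1 z (by linarith) (by rw [hN] at *; linarith) (by rw [hN] at *; linarith)).1)
    (hb1 c (by rw [hcre, hN]; linarith) (by rw [hcre, hN]; linarith)
      (by rw [hcim]; rw [hN]; linarith)).2
    (fun z hz h0 => by
      obtain ⟨h3, h4, h5⟩ := hball z _ (ball_subset_closedBall hz)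
      have h6 := (hb1 z (by linarith) (by rw [hN] at *; linarith) (by rw [hN] at *; linarith)).2
      rw [h0, norm_zero] at h6
      linarith [Real.exp_pos (-(η * ℓ))])
    (fun S hS => by
      have h3 : ∀ z ∈ S, F z = 0 ∧ z ∈ {z : ℂ | min η (ρ / 2) ≤ z.re ∧ z.re ≤ R1 + 2 * N ∧
          |z.im| ≤ R1 + 2 * N} := by
        intro z hz
        obtain ⟨h4, h5⟩ := hS z hz
        obtain ⟨h6, h7, h8⟩ := hball z _ h4
        refine ⟨?_, (min_le_right _ _).trans (by linarith), by linarith, by linarith⟩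
        rw [hg] at h5
        simp only [div_eq_zero_iff, mul_eq_zero, Complex.exp_ne_zero, hH', or_false] at h5
        exact h5
      have h4 := hcnt S h3
      refine le_trans (le_of_eq ?_) (h4.trans hκ1)
      refine Finset.sum_congr rfl fun z _ => ?_
      have h5 : analyticOrderNatAt g z = analyticOrderNatAt F z := by
        obtain ⟨h, hh, hz, he⟩ := Pool.Agent.W186.LH.single hF ⟨c, hcF⟩ z
        refine Pool.Agent.W186.LH.ord_of (h := fun u => h u * Complex.exp (-(ℓ * u)) / H)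
          (by fun_prop) (by fun_prop) ?_ ?_
        · exact div_ne_zero (mul_ne_zero hz (Complex.exp_ne_zero _)) hH'
        · intro w
          show F w * Complex.exp (-(ℓ * w)) / H = _
          rw [he w]; ring
      unfold H370.mult
      rw [h5])
    u (by
      rw [mem_closedBall, dist_eq_norm]
      have h3 : u - c = ((u.re - N : ℝ) : ℂ) := by
        apply Complex.ext
        · simp [hcre]
        · simp [hcim]
      rw [h3, Complex.norm_real, Real.norm_eq_abs, abs_le]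
      constructor <;> rw [hN] at * <;> linarith)
  rw [hgn, div_le_iff₀ hH] at key
  have h3 : ‖F u‖ = ‖F u‖ * Real.exp (-(ℓ * u.re)) * Real.exp (ℓ * u.re) := by
    rw [mul_assoc, ← Real.exp_add]; simp
  rw [h3]
  calc ‖F u‖ * Real.exp (-(ℓ * u.re)) * Real.exp (ℓ * u.re)
      ≤ Real.exp (κ * ℓ) * H * Real.exp (ℓ * u.re) := mul_le_mul_of_nonneg_right key (Real.exp_pos _).le
    _ = H * Real.exp (ℓ * u.re + κ * ℓ) := by rw [Real.exp_add]; ring

end Pool.Agent.V7H89.GL
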