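import Pool.Agent.W169.HF.Asm
import Pool.Agent.W169.HF.DefsD
import Pool.Agent.V7H89.GL.Tcz
import Pool.Agent.V7H89.GL.Sad
import Pool.Agent.W351.HF.TC
import Pool.Agent.W397.HF.Lcx
import Pool.Agent.W45.HF.Prof
import Pool.Agent.W363.HF.JU
import Pool.Agent.W736.HF.JL
import Pool.Agent.W366.HF.Hlo
import Pool.Agent.W565.HF.Hup
import Pool.Agent.W565.HF.Inv
import Pool.Agent.W320.HF.Rect
import Pool.Agent.W160.HF.Hpx
import Pool.Agent.W583.HF.InvX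
import Pool.Agent.W193.HF.Net
import Pool.Agent.W131.HF.Fwd2
import Pool.Agent.W816.HF.JU2
import Pool.Agent.W816.HF.JL2
import Pool.Agent.W169.HF.Maj

/-!
# The heat flow and the size: assembly of the abstract statements of projects HF, SC and GLD
-/

set_option autoImplicit false

open Complex MeasureTheory Filter Topology Set
open scoped ComplexConjugate

namespace Pool.Agent.V7H89.GL

open Pool.Agent.W169.HF

theorem prof_all : S_PROF := Pool.Agent.W45.HF.prof_of Pool.Agent.W351.HF.tc Pool.Agent.W397.HF.lcx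

theorem jl_all : S_JL := Pool.Agent.W736.HF2.jl_of sad

theorem hlo_all : S_HLO := Pool.Agent.W366.HF.hlo_of prof_all Pool.Agent.W363.HF.ju jl_all

theorem inv_all : S_INV := Pool.Agent.W565.HF.inv hs_all sg_all heat_all

theorem hup_all : S_HUP := Pool.Agent.W565.HF.hup

theorem rect_all : S_RECT := Pool.Agent.W320.HF.rect

theorem hpx_all : S_HPX := Pool.Agent.W160.HF.hpx

theorem invx_all : S_INVX := Pool.Agent.W583.HF.invx_of hup_all inv_all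

theorem net_all : S_NET := Pool.Agent.W193.HF.net_of rect_all

theorem jen_all : S_JEN := Pool.Agent.W251.HF.jen

theorem fwd2_all : S_FWD2 := Pool.Agent.W131.HF.fwd2_of Pool.Agent.W816.HF.ju2 (Pool.Agent.W816.HF.jl2_of sad)

/-- small size of `f` near the line implies that the heat flow has few zeros off the line -/
theorem few_of_size : ∀ K ϑ0 x X R δ ε : ℝ, 1 ≤ K → 1 / 2 ≤ ϑ0 → ϑ0 ≤ 2 → 0 < x → x ≤ X → 1 ≤ X →
    1 ≤ R → 0 < δ → δ ≤ 1 → 0 < ε →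
    ∃ κ R' ℓ0 : ℝ, 0 < κ ∧ 1 ≤ R' ∧ ∀ (ℓ G t : ℝ) (f : ℂ → ℂ), ℓ0 ≤ ℓ → UD K ϑ0 ℓ G f →
      (∀ u : ℂ, |u.re| ≤ R' → |u.im| ≤ R' → ‖f u‖ ≤ G * Real.exp (ℓ * phx x |u.re| + κ * ℓ)) →
      0 < t → x - κ ≤ 2 * t * ℓ → 2 * t * ℓ ≤ X →
      Cnt (heat t f) {z : ℂ | δ ≤ z.re ∧ z.re ≤ R ∧ |z.im| ≤ R} (ε * ℓ) := by
  intro K ϑ0 x X R δ ε hK hϑ0 hϑ02 hx hxX hX hR hδ hδ1 hε
  obtain ⟨κa, Ra, hκa, hRa, HJ⟩ := jen_all R δ ε (ϑ0 + 1 / 2) hR hδ hδ1 hε (by linarith)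
  have hRa1 : 1 ≤ Ra := hR.trans hRa
  obtain ⟨κb, Rb, ℓb, hκb, hRb, HX⟩ := hpx_all K ϑ0 x X κa Ra hK hϑ0 hϑ02 hx hxX hX hκa hRa1
  obtain ⟨ℓc, HL⟩ := hlo_all K ϑ0 (x / 2) X κa Ra hK hϑ0 hϑ02 (by positivity) hX hκa hRa1
  refine ⟨min κb (x / 2), Rb, max 1 (max ℓb ℓc), lt_min hκb (by positivity), by linarith, ?_⟩
  intro ℓ G t f hℓ ud hsize ht h1 h2
  have hℓ1 : 1 ≤ ℓ := (le_max_left _ _).trans hℓ
  have hℓb : ℓb ≤ ℓ := ((le_max_left _ _).trans (le_max_right _ _)).trans hℓ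
  have hℓc : ℓc ≤ ℓ := ((le_max_right _ _).trans (le_max_right _ _)).trans hℓ
  have hκ1 : min κb (x / 2) ≤ κb := min_le_left _ _
  have hκ2 : min κb (x / 2) ≤ x / 2 := min_le_right _ _
  have hκ1ℓ : min κb (x / 2) * ℓ ≤ κb * ℓ := mul_le_mul_of_nonneg_right hκ1 (by linarith)
  have hG := ud.hG
  have hup := HX ℓ G t f hℓb ud (fun u hu1 hu2 => (hsize u hu1 hu2).trans (by gcongr)) ht
    (by linarith) h2
  have hlow := HL ℓ G t f hℓc ud ht (by linarith) h2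
  have hslow : Slow (heat t f) := by
    rw [heat_all f ud.slow t ht.le]
    exact (hs_all f ud.slow t).2.1
  refine HJ ℓ (G * Real.exp (t * ℓ ^ 2)) (heat t f) (by linarith) (by positivity) hslow.1 ?_ ?_
  · intro u hu0 hu1 hu2
    have := hup u (by rw [abs_of_nonneg hu0]; exact hu1) hu2
    rwa [abs_of_nonneg hu0] at this
  · intro u hu0 hu1 hu2
    exact (hlow u hu0 hu1 hu2).1

/-- few zeros of the heat flow off the line imply that `f` is small near the line -/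
theorem size_of_few : ∀ K ϑ0 g X κ : ℝ, 1 ≤ K → 1 / 2 ≤ ϑ0 → ϑ0 ≤ 2 → 0 < g → 1 ≤ X → 0 < κ →
    ∃ κ1 R ℓ0 : ℝ, 0 < κ1 ∧ 1 ≤ R ∧ ∀ (ℓ G t : ℝ) (f : ℂ → ℂ), ℓ0 ≤ ℓ → UD K ϑ0 ℓ G f → 0 < t →
      g ≤ 2 * t * ℓ → 2 * t * ℓ ≤ X →
      Cnt (heat t f) {z : ℂ | κ1 ≤ z.re ∧ z.re ≤ R ∧ |z.im| ≤ R} (κ1 * ℓ) →
      ∀ r : ℝ, 0 ≤ r → r ≤ 1 → ‖f r‖ ≤ G * Real.exp (ℓ * phx (2 * t * ℓ) r + κ * ℓ) := by
  intro K ϑ0 g X κ hK hϑ0 hϑ02 hg hX hκ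
  obtain ⟨κa, Ra, ℓa, hκa, hκa1, hRa, HI⟩ := invx_all K ϑ0 g X κ hK hϑ0 hϑ02 hg hX hκ
  obtain ⟨K', ℓb, hK', HU⟩ := hup_all K ϑ0 X hK hϑ0 hϑ02 hX
  obtain ⟨κc, Rc, ℓc, hκc, hRc, HT⟩ := tcz (ϑ0 + 1) (ϑ0 + 1 / 2) κa κa (max Ra 2) (by linarith)
    (by linarith) (by linarith) hκa hκa1 hκa (le_trans (by norm_num) (le_max_right _ _))
  have hRc1 : 1 ≤ Rc := le_trans (le_trans (by norm_num) (le_max_right Ra 2)) hRc
  obtain ⟨ℓd, HL⟩ := hlo_all K ϑ0 g X κc Rc hK hϑ0 hϑ02 hg hX hκc hRc1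
  refine ⟨κc, Rc, max (max ℓa ℓb) (max (max ℓc ℓd) (max 1 (K' * (1 + 2 * Rc ^ 2)))), hκc, hRc1, ?_⟩
  intro ℓ G t f hℓ ud ht h1 h2 hcnt
  have hℓa : ℓa ≤ ℓ := ((le_max_left _ _).trans (le_max_left _ _)).trans hℓ
  have hℓb : ℓb ≤ ℓ := ((le_max_right _ _).trans (le_max_left _ _)).trans hℓ
  have hℓ' := (le_max_right (max ℓa ℓb) (max (max ℓc ℓd) (max 1 (K' * (1 + 2 * Rc ^ 2))))).trans hℓ
  have hℓc : ℓc ≤ ℓ := ((le_max_left _ _).trans (le_max_left _ _)).trans hℓ'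
  have hℓd : ℓd ≤ ℓ := ((le_max_right _ _).trans (le_max_left _ _)).trans hℓ'
  have hℓ1 : 1 ≤ ℓ := ((le_max_left _ _).trans (le_max_right _ _)).trans hℓ'
  have hℓK : K' * (1 + 2 * Rc ^ 2) ≤ ℓ := ((le_max_right _ _).trans (le_max_right _ _)).trans hℓ'
  have hG := ud.hG
  have hslow : Slow (heat t f) := by
    rw [heat_all f ud.slow t ht.le]
    exact (hs_all f ud.slow t).2.1
  have hup := HT ℓ (G * Real.exp (t * ℓ ^ 2)) (heat t f) hℓc (by positivity) hslow.1 ?_ ?_ hcnt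
  · refine HI ℓ G t f hℓa ud ht h1 h2 ?_
    intro u hu1 hu2 hu3
    exact hup u hu1 (hu2.trans (le_max_right _ _)) (hu3.trans (le_max_left _ _))
  · intro u hu1 hu2 hu3
    refine (HU ℓ G t f hℓb ud ht h2 u).trans ?_
    refine mul_le_mul_of_nonneg_left (Real.exp_le_exp.2 ?_) (by positivity)
    rw [abs_of_nonneg hu1]
    have h3 : ‖u‖ ^ 2 ≤ Rc ^ 2 + Rc ^ 2 := nsq (by rw [abs_of_nonneg hu1]; exact hu2) hu3
    have h4 : K' * (1 + ‖u‖ ^ 2) ≤ ℓ := by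
      refine le_trans ?_ hℓK
      exact mul_le_mul_of_nonneg_left (by linarith) (by linarith)
    have h5 : max u.re ϑ0 ≤ u.re + ϑ0 := max_le (by linarith) (by linarith)
    have h6 : ℓ * max u.re ϑ0 ≤ ℓ * (u.re + ϑ0) := mul_le_mul_of_nonneg_left h5 (by linarith)
    nlinarith
  · intro u hu1 hu2 hu3
    exact HL ℓ G t f hℓd ud ht h1 h2 u hu1 hu2 hu3

end Pool.Agent.V7H89.GL
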