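import Pool.Agent.V7H89.GL.Gam
import Pool.Agent.V7H89.GL.Asm

/-!
# The heat flow of completed L-functions, uniformly in the conductor
-/

set_option autoImplicit false

open Complex Set MeasureTheory Filter Topology
open scoped ComplexConjugate

namespace Pool.Agent.V7H89.GL

open Pool.Agent.W169.HF H353.E H353.F

variable {m : ℕ}

/-- half the logarithm of the conductor, up to a bounded error -/
noncomputable def el (N : ℝ) (μ : Fin m → ℂ) (y : ℝ) : ℝ := (gaD N μ (3 / 2 + y * I)).re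

/-- the reference size -/
noncomputable def GG (θ N : ℝ) (μ : Fin m → ℂ) (y : ℝ) : ℝ := GU (1 + θ + 1 / 2) (gaf N μ) (gaD N μ) y

/-- the completed L-function near the height `y` -/
noncomputable def ff (N : ℝ) (Λ : ℂ → ℂ) (y : ℝ) (u : ℂ) : ℂ := XX N Λ (1 / 2 + y * I + u)

/-- the L-function -/
noncomputable def LL (N : ℝ) (μ : Fin m → ℂ) (Λ : ℂ → ℂ) (s : ℂ) : ℂ := XX N Λ s * (gaf N μ s)⁻¹

/-- the class of L-functions -/
structure Dat (θ N : ℝ) (μ : Fin m → ℂ) (α : Fin m → ℕ → ℂ) (ε : ℂ) (Λ : ℂ → ℂ) : Prop where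
  d : DatumT θ N μ α ε Λ
  arch : ∀ j, (μ j).re ≤ θ
  ne : ∀ s : ℂ, 1 < s.re → XX N Λ s ≠ 0

lemma heat_shift (t : ℝ) (F : ℂ → ℂ) (a u : ℂ) : heat t (fun z => F (a + z)) u = heat t F (a + u) := by
  unfold heat
  simp only [add_assoc]

lemma ud_mono {K K' ϑ0 ℓ G : ℝ} {f : ℂ → ℂ} (h : UD K ϑ0 ℓ G f) (hK : K ≤ K') : UD K' ϑ0 ℓ G f := by
  have hG := h.hG
  refine ⟨h.slow, h.fe, hG, fun u => (h.up u).trans ?_, fun u hu => le_trans ?_ (h.lo u hu)⟩
  · gcongr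
  · gcongr

lemma pf_mono {κ κ' ϑ R R' ℓ G : ℝ} {f : ℂ → ℂ} (h : Pf κ ϑ R ℓ G f) (hκ : κ ≤ κ') (hR : R' ≤ R)
    (hℓ : 0 ≤ ℓ) (hG : 0 ≤ G) : Pf κ' ϑ R' ℓ G f := by
  have hκℓ : κ * ℓ ≤ κ' * ℓ := mul_le_mul_of_nonneg_right hκ hℓ
  refine ⟨fun u h1 h2 h3 => le_trans ?_ (h.low u h1 (h2.trans hR) (h3.trans hR)),
    fun u h1 h2 => (h.upp u (h1.trans hR) (h2.trans hR)).trans ?_,
    fun u h1 h2 h3 => (h.der u h1 (h2.trans hR) (h3.trans hR)).trans hκℓ⟩
  · gcongr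
  · gcongr

/-- the analytic conductor -/
noncomputable def cq (N : ℝ) (μ : Fin m → ℂ) (y : ℝ) : ℝ := N * ∏ j, (1 + ‖1 / 2 + (y : ℂ) * I - μ j‖)

lemma le_cq {N : ℝ} (hN : 1 ≤ N) (μ : Fin m → ℂ) (y : ℝ) : N ≤ cq N μ y := by
  unfold cq
  have h1 : 1 ≤ ∏ j, (1 + ‖1 / 2 + (y : ℂ) * I - μ j‖) := by
    refine Finset.prod_induction _ (fun x => (1 : ℝ) ≤ x) (fun a b ha hb => ?_) le_rfl fun j _ => ?_
    · nlinarith
    · linarith [norm_nonneg (1 / 2 + (y : ℂ) * I - μ j)]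
  nlinarith

lemma cq_cnd {N : ℝ} (hN : 1 ≤ N) (μ : Fin m → ℂ) (y : ℝ) :
    Real.log (cq N μ y) ≤ Real.log (cnd N μ y) + m ∧ Real.log (cnd N μ y) ≤ Real.log (cq N μ y) + m := by
  have hN0 : 0 < N := by linarith
  have h1 : 0 < cq N μ y := lt_of_lt_of_le hN0 (le_cq hN μ y)
  have h2 : 0 < cnd N μ y := lt_of_lt_of_le hN0 (le_cnd hN μ y)
  have he := Real.add_one_le_exp (1 : ℝ)
  have hhalf : ‖(1 / 2 : ℂ)‖ = 1 / 2 := by norm_num
  have hpt : ∀ j, (1 / 2 + (y : ℂ) * I - μ j) = 1 / 2 + ((y : ℂ) * I - μ j) := fun j => by ring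
  constructor
  · have h3 : cq N μ y ≤ cnd N μ y * Real.exp (m * 1) := by
      unfold cnd cq
      rw [mul_assoc]
      apply mul_le_mul_of_nonneg_left _ hN0.le
      calc ∏ j, (1 + ‖1 / 2 + (y : ℂ) * I - μ j‖) ≤ ∏ j, ((1 + ‖(y : ℂ) * I - μ j‖) * Real.exp 1) := by
            apply Finset.prod_le_prod (fun j _ => by positivity) fun j _ => ?_
            rw [hpt]
            have h4 := norm_add_le (1 / 2 : ℂ) ((y : ℂ) * I - μ j)
            rw [hhalf] at h4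
            have h5 := norm_nonneg ((y : ℂ) * I - μ j)
            nlinarith
        _ = _ := by
            rw [Finset.prod_mul_distrib, Finset.prod_const, Finset.card_univ, Fintype.card_fin,
              ← Real.exp_nat_mul]
    have h4 := Real.log_le_log h1 h3
    rwa [Real.log_mul h2.ne' (Real.exp_pos _).ne', Real.log_exp, mul_one] at h4
  · have h3 : cnd N μ y ≤ cq N μ y * Real.exp (m * 1) := by
      unfold cnd cq
      rw [mul_assoc]
      apply mul_le_mul_of_nonneg_left _ hN0.le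
      calc ∏ j, (1 + ‖(y : ℂ) * I - μ j‖) ≤ ∏ j, ((1 + ‖1 / 2 + (y : ℂ) * I - μ j‖) * Real.exp 1) := by
            apply Finset.prod_le_prod (fun j _ => by positivity) fun j _ => ?_
            have h4 := norm_sub_le (1 / 2 + (y : ℂ) * I - μ j) (1 / 2 : ℂ)
            rw [hhalf] at h4
            have e : (1 / 2 + (y : ℂ) * I - μ j) - (1 / 2 : ℂ) = (y : ℂ) * I - μ j := by ring
            rw [e] at h4
            have h5 := norm_nonneg (1 / 2 + (y : ℂ) * I - μ j)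
            nlinarith
        _ = _ := by
            rw [Finset.prod_mul_distrib, Finset.prod_const, Finset.card_univ, Fintype.card_fin,
              ← Real.exp_nat_mul]
    have h4 := Real.log_le_log h2 h3
    rwa [Real.log_mul h1.ne' (Real.exp_pos _).ne', Real.log_exp, mul_one] at h4

/-- the basic facts -/
theorem base (hm : 1 ≤ m) {θ : ℝ} (hθ0 : 0 ≤ θ) (hθ : θ < 1 / 2) : ∃ K : ℝ, 1 ≤ K ∧
    ∀ (N : ℝ) (μ : Fin m → ℂ) (α : Fin m → ℕ → ℂ) (ε : ℂ) (Λ : ℂ → ℂ), Dat θ N μ α ε Λ →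
      Cl 1 (XX N Λ) ∧ (∃ z, XX N Λ z ≠ 0) ∧
      ∀ y : ℝ, UD K (1 + θ) (el N μ y) (GG θ N μ y) (ff N Λ y) ∧
        (∀ u : ℂ, 0 ≤ u.re → GG θ N μ y * Real.exp (el N μ y * u.re - K * (1 + ‖u‖ ^ 2)) ≤
          ‖gaf N μ (1 / 2 + y * I + u)‖ ∧ ‖gaf N μ (1 / 2 + y * I + u)‖ ≤
          GG θ N μ y * Real.exp (el N μ y * u.re + K * (1 + ‖u‖ ^ 2))) ∧
        Real.log (cq N μ y) - 15 * m ≤ 2 * el N μ y ∧ 2 * el N μ y ≤ Real.log (cq N μ y) + 15 * m ∧
        1 ≤ cq N μ y ∧ (∀ u : ℂ, 1 / 2 < u.re → ff N Λ y u ≠ 0) := by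
  have hm' : (1 : ℝ) ≤ m := by exact_mod_cast hm
  obtain ⟨B, hB, HS⟩ := sharpX m hm hθ0 hθ.le (η := 1 / 2) (by norm_num) (by norm_num)
  refine ⟨max (KU (6 * m) B) (K3 m θ), le_max_of_le_left (KU_ge (by linarith) hB), ?_⟩
  intro N μ α ε Λ D
  obtain ⟨S, hslow, hfe, hzer, hne⟩ := HS N μ α ε Λ D.d
  have hN := D.d.one_le
  refine ⟨⟨hslow, ⟨ε, D.d.norm_eq, hfe⟩, fun s hs => ?_⟩, hne, fun y => ?_⟩
  · have := hzer s hs
    linarith
  have hud := ud_of_sharp S (by linarith) hslow y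
  have e1 : 1 + θ + 1 / 2 - 1 / 2 = 1 + θ := by ring
  rw [e1] at hud
  obtain ⟨h1, h2⟩ := ell_cmp hN D.d.re_le y
  obtain ⟨h1', h2'⟩ := cq_cnd hN μ y
  refine ⟨ud_mono hud (le_max_left _ _), fun u hu => ?_, ?_, ?_, hN.trans (le_cq hN μ y), fun u hu => ?_⟩
  rotate_left
  · show _ ≤ 2 * (gaD N μ (3 / 2 + y * I)).re
    linarith
  · show 2 * (gaD N μ (3 / 2 + y * I)).re ≤ _
    linarith
  rotate_left
  · obtain ⟨h3, h4⟩ := gam_line hm hθ hN D.arch (σ := 1 + θ + 1 / 2) (by linarith) (by linarith) y hu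
    have hG : 0 ≤ GG θ N μ y := hud.hG.le
    have hK : K3 m θ * (1 + ‖u‖ ^ 2) ≤ max (KU (6 * m) B) (K3 m θ) * (1 + ‖u‖ ^ 2) :=
      mul_le_mul_of_nonneg_right (le_max_right _ _) (by positivity)
    refine ⟨le_trans ?_ h3, h4.trans ?_⟩
    · apply mul_le_mul_of_nonneg_left (Real.exp_le_exp.2 _) hG
      show el N μ y * u.re - _ ≤ el N μ y * u.re - _
      linarith
    · apply mul_le_mul_of_nonneg_left (Real.exp_le_exp.2 _) hG
      show el N μ y * u.re + _ ≤ el N μ y * u.re + _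
      linarith
  · apply D.ne
    simp
    linarith

/-- the conductor at neighbouring heights -/
lemma cq_move {N : ℝ} (hN : 1 ≤ N) (μ : Fin m → ℂ) (y v : ℝ) :
    Real.log (cq N μ (y + v)) ≤ Real.log (cq N μ y) + m * |v| := by
  have hN0 : 0 < N := by linarith
  have h0 : ∀ y, 0 < cq N μ y := fun y => lt_of_lt_of_le hN0 (le_cq hN μ y)
  have h1 : cq N μ (y + v) ≤ cq N μ y * Real.exp (m * |v|) := by
    unfold cq
    rw [mul_assoc]
    apply mul_le_mul_of_nonneg_left _ hN0.le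
    calc ∏ j, (1 + ‖1 / 2 + ((y + v : ℝ) : ℂ) * I - μ j‖) ≤ ∏ j, ((1 + ‖1 / 2 + (y : ℂ) * I - μ j‖) * Real.exp |v|) := by
          apply Finset.prod_le_prod (fun j _ => by positivity) fun j _ => ?_
          have e : 1 / 2 + ((y + v : ℝ) : ℂ) * I - μ j = (1 / 2 + (y : ℂ) * I - μ j) + (v : ℂ) * I := by push_cast; ring
          rw [e]
          have h2 := norm_add_le (1 / 2 + (y : ℂ) * I - μ j) ((v : ℂ) * I)
          rw [norm_mul, Complex.norm_I, mul_one, Complex.norm_real, Real.norm_eq_abs] at h2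
          have h3 := Real.add_one_le_exp |v|
          have h4 := norm_nonneg (1 / 2 + (y : ℂ) * I - μ j)
          have h5 := abs_nonneg v
          nlinarith
      _ = _ := by
          rw [Finset.prod_mul_distrib, Finset.prod_const, Finset.card_univ, Fintype.card_fin,
            ← Real.exp_nat_mul]
  have h2 := Real.log_le_log (h0 _) h1
  rwa [Real.log_mul (h0 y).ne' (Real.exp_pos _).ne', Real.log_exp] at h2

lemma cq_move' {N : ℝ} (hN : 1 ≤ N) (μ : Fin m → ℂ) (y v : ℝ) :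
    Real.log (cq N μ y) ≤ Real.log (cq N μ (y + v)) + m * |v| := by
  have := cq_move hN μ (y + v) (-v)
  rwa [add_neg_cancel_right, abs_neg] at this

end Pool.Agent.V7H89.GL
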