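import Pool.Agent.V7H89.GL.Law

/-!
# The law: the size of the L-function bounds the number of the zeros of the heat flow
-/

set_option autoImplicit false

open Complex Set MeasureTheory Filter Topology
open scoped ComplexConjugate

namespace Pool.Agent.V7H89.GL

open Pool.Agent.W169.HF H353.E H353.F

variable {m : ℕ}

/-- the completed L-function through the L-function -/
lemma ff_norm {N : ℝ} {μ : Fin m → ℂ} {Λ : ℂ → ℂ} {y G ℓ K E : ℝ} {u : ℂ} (hG : 0 < G)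
    (h1 : G * Real.exp (ℓ * u.re - K * (1 + ‖u‖ ^ 2)) ≤ ‖gaf N μ (1 / 2 + y * I + u)‖)
    (h2 : ‖gaf N μ (1 / 2 + y * I + u)‖ ≤ G * Real.exp (ℓ * u.re + K * (1 + ‖u‖ ^ 2)))
    (h3 : ‖LL N μ Λ (1 / 2 + y * I + u)‖ ≤ Real.exp E) :
    ‖ff N Λ y u‖ ≤ G * Real.exp (E + ℓ * u.re + K * (1 + ‖u‖ ^ 2)) := by
  have hpos : 0 < G * Real.exp (ℓ * u.re - K * (1 + ‖u‖ ^ 2)) := by positivity
  have hne : gaf N μ (1 / 2 + y * I + u) ≠ 0 := norm_pos_iff.1 (hpos.trans_le h1)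
  have e : ff N Λ y u = LL N μ Λ (1 / 2 + y * I + u) * gaf N μ (1 / 2 + y * I + u) := by
    unfold LL ff
    rw [mul_assoc, inv_mul_cancel₀ hne, mul_one]
  rw [e, norm_mul]
  calc ‖LL N μ Λ (1 / 2 + y * I + u)‖ * ‖gaf N μ (1 / 2 + y * I + u)‖
      ≤ Real.exp E * (G * Real.exp (ℓ * u.re + K * (1 + ‖u‖ ^ 2))) :=
        mul_le_mul h3 h2 (norm_nonneg _) (Real.exp_pos _).le
    _ = _ := by
        rw [mul_left_comm, ← Real.exp_add]
        congr 2
        ring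

theorem few_of_bound (hm : 1 ≤ m) {θ : ℝ} (hθ0 : 0 ≤ θ) (hθ : θ < 1 / 2) {x η ε R : ℝ} (hx : 0 < x)
    (hη : 0 < η) (hε : 0 < ε) (hR : 0 < R) (Cb : ℝ → ℝ → ℝ) :
    ∃ Q0 : ℝ, 1 < Q0 ∧ ∀ (N : ℝ) (μ : Fin m → ℂ) (α : Fin m → ℕ → ℂ) (w : ℂ) (Λ : ℂ → ℂ),
      Dat θ N μ α w Λ →
      (∀ r κ : ℝ, 0 < r → r ≤ 1 / 2 → 0 < κ → ∀ y : ℝ,
        ‖LL N μ Λ (1 / 2 + y * I + r)‖ ≤ Cb r κ * cq N μ y ^ (phi x r / 2 + κ)) →
      ∀ T : ℝ, Q0 ≤ cq N μ T →
        Cnt (heat (x / Real.log (cq N μ T)) (XX N Λ)) {s : ℂ | 1 / 2 + η ≤ s.re ∧ |s.im - T| ≤ R}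
          (ε * Real.log (cq N μ T)) := by
  have hm' : (1 : ℝ) ≤ m := by exact_mod_cast hm
  obtain ⟨K, hK, HB⟩ := base hm hθ0 hθ
  obtain ⟨κ, R', ℓa, hκ, hR', HS⟩ := few_of_size K (1 + θ) x (x + 1) (max R 1) (min η 1) ε hK
    (by linarith) (by linarith) hx (by linarith) (by linarith) (le_max_right _ _) (lt_min hη one_pos)
    (min_le_right _ _) hε
  obtain ⟨M, κ1, R1, ℓb, hM, hκ1, hR1, HN⟩ := net_all K (1 + θ) x κ R' hK (by linarith) (by linarith) hx hκ hR'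
  have hM' : (1 : ℝ) ≤ M := by exact_mod_cast hM
  obtain ⟨R4, ℓc, hR4, HP⟩ := prof_all K (1 + θ) (1 / 2) (1 / (2 * M)) κ1 R1 hK (by linarith)
    (by linarith) (by norm_num) (by linarith) (by positivity) (by
      rw [div_le_iff₀ (by positivity)]
      linarith) hκ1 hR1
  obtain ⟨κ', hκ'd⟩ : ∃ κ' : ℝ, κ' = κ1 / 4 := ⟨_, rfl⟩
  have hκ' : 0 < κ' := by rw [hκ'd]; positivity
  obtain ⟨CM, hCM⟩ : ∃ CM : ℝ, CM = ∑ k ∈ Finset.range (M + 1), max (Cb (k / (2 * M)) κ') 1 := ⟨_, rfl⟩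
  have hCMk : ∀ k ∈ Finset.range (M + 1), max (Cb (k / (2 * M)) κ') 1 ≤ CM := fun k hk => by
    rw [hCM]
    exact Finset.single_le_sum (f := fun k : ℕ => max (Cb (k / (2 * M)) κ') 1)
      (fun i _ => le_trans zero_le_one (le_max_right _ _)) hk
  have hCM1 : 1 ≤ CM := (le_max_right _ _).trans (hCMk 0 (by simp))
  obtain ⟨c, hc⟩ : ∃ c : ℝ, c = 15 * (m : ℝ) := ⟨_, rfl⟩
  have hc0 : 0 < c := by rw [hc]; positivity
  -- the constant in the lines
  obtain ⟨E1, hE1⟩ : ∃ E1 : ℝ, E1 = (Real.log CM + (x / 2 + κ') * (c + m * |R1|) + K * (2 + R1 ^ 2)) /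
    (κ1 / 2) := ⟨_, rfl⟩
  obtain ⟨ℓ0, hℓ0⟩ : ∃ ℓ0 : ℝ, ℓ0 = max (max ℓa ℓb) (max ℓc (max E1 1)) := ⟨_, rfl⟩
  refine ⟨Real.exp (max (max (2 * ℓ0 + c) (x * c / κ)) (max (x * c) (max c 1))), ?_, ?_⟩
  · apply Real.one_lt_exp_iff.2
    have := (le_max_right c 1).trans ((le_max_right (x * c) _).trans
      (le_max_right (max (2 * ℓ0 + c) (x * c / κ)) _))
    linarith
  intro N μ α w Λ D hbd T hT
  have hN := D.d.one_le
  obtain ⟨hCl, hne, HU⟩ := HB N μ α w Λ D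
  obtain ⟨hud, hgam, hl1, hl2, hc1, hfne⟩ := HU T
  obtain ⟨ℓ, hℓd⟩ : ∃ ℓ : ℝ, ℓ = el N μ T := ⟨_, rfl⟩
  rw [← hℓd] at hud hgam hl1 hl2
  have hG := hud.hG
  obtain ⟨L, hL⟩ : ∃ L : ℝ, L = Real.log (cq N μ T) := ⟨_, rfl⟩
  have hcnd0 : 0 < cq N μ T := by linarith
  have hLge : max (max (2 * ℓ0 + c) (x * c / κ)) (max (x * c) (max c 1)) ≤ L := by
    have := Real.log_le_log (Real.exp_pos _) hT
    rwa [Real.log_exp, ← hL] at this
  have hLa : 2 * ℓ0 + c ≤ L := ((le_max_left _ _).trans (le_max_left _ _)).trans hLge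
  have hLb : x * c / κ ≤ L := ((le_max_right _ _).trans (le_max_left _ _)).trans hLge
  have hLc : x * c ≤ L := ((le_max_left _ _).trans (le_max_right _ _)).trans hLge
  have hLd : c ≤ L := ((le_max_left _ _).trans ((le_max_right _ _).trans (le_max_right _ _))).trans hLge
  have hL0 : 0 < L := by linarith
  rw [← hL]
  rw [← hL, ← hc] at hl1 hl2
  have hℓ : ℓ0 ≤ ℓ := by linarith
  have hℓa : ℓa ≤ ℓ := ((le_max_left _ _).trans (le_max_left _ _)).trans (hℓ0 ▸ hℓ)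
  have hℓb : ℓb ≤ ℓ := ((le_max_right _ _).trans (le_max_left _ _)).trans (hℓ0 ▸ hℓ)
  have hℓc : ℓc ≤ ℓ := ((le_max_left _ _).trans (le_max_right _ _)).trans (hℓ0 ▸ hℓ)
  have hℓE : E1 ≤ ℓ := ((le_max_left _ _).trans ((le_max_right _ _).trans (le_max_right _ _))).trans
    (hℓ0 ▸ hℓ)
  have hℓ1 : 1 ≤ ℓ := ((le_max_right _ _).trans ((le_max_right _ _).trans (le_max_right _ _))).trans
    (hℓ0 ▸ hℓ)
  rw [hE1, div_le_iff₀ (by positivity)] at hℓE
  obtain ⟨ht1, ht2⟩ := time_cmp hx hL0 hl1 hl2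
  have hxc1 : x * c / L ≤ κ := by
    rw [div_le_iff₀ hκ] at hLb
    rw [div_le_iff₀ hL0]
    linarith
  have hxc2 : x * c / L ≤ 1 := by
    rw [div_le_iff₀ hL0]
    linarith
  have hpf := HP ℓ (GG θ N μ T) (ff N Λ T) hℓc hud (fun u hu _ => hfne u hu)
  -- the size
  have hsize := HN ℓ (GG θ N μ T) (ff N Λ T) hℓb hud hpf (by
    intro k hk1 hkM v hv
    have hk1' : (1 : ℝ) ≤ k := by exact_mod_cast hk1
    have hkM' : (k : ℝ) ≤ M := by exact_mod_cast hkM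
    obtain ⟨r, hr⟩ : ∃ r : ℝ, r = (k : ℝ) / (2 * M) := ⟨_, rfl⟩
    have hr0 : 0 < r := by rw [hr]; positivity
    have hr1 : r ≤ 1 / 2 := by
      rw [hr, div_le_iff₀ (by positivity)]
      linarith
    rw [← hr]
    obtain ⟨u, hu⟩ : ∃ u : ℂ, u = (r : ℂ) + v * I := ⟨_, rfl⟩
    rw [← hu]
    have hure : u.re = r := by rw [hu]; simp
    have huim : u.im = v := by rw [hu]; simp
    have hun : ‖u‖ ^ 2 ≤ 1 + R1 ^ 2 := by
      rw [Complex.sq_norm, Complex.normSq_apply, hure, huim]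
      have h1 : v * v ≤ R1 ^ 2 := by
        rw [← abs_mul_abs_self v, sq]
        exact mul_le_mul hv hv (abs_nonneg _) (by linarith)
      have h2 : r * r ≤ 1 / 2 * (1 / 2) := mul_le_mul hr1 hr1 hr0.le (by norm_num)
      linarith
    obtain ⟨hg1, hg2⟩ := hgam u (by rw [hure]; exact hr0.le)
    have h1 := hbd r κ' hr0 hr1 hκ' (T + v)
    have e : (1 / 2 + ((T + v : ℝ) : ℂ) * I + r : ℂ) = 1 / 2 + T * I + u := by rw [hu]; push_cast; ring
    rw [e] at h1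
    have h2 : Cb r κ' ≤ CM := by
      have := (le_max_left _ _).trans (hCMk k (Finset.mem_range.2 (by omega)))
      rwa [← hr] at this
    have hφ := phi_nonneg (r := r) hx
    have hφ2 : phi x r ≤ x / 2 := by
      unfold phi
      rw [div_le_div_iff₀ (by positivity) (by norm_num)]
      have h3 : max (x - r) 0 ≤ x := max_le (by linarith) hx.le
      have h4 : 0 ≤ max (x - r) 0 := le_max_right _ _
      have h5 : max (x - r) 0 ^ 2 ≤ x ^ 2 := pow_le_pow_left₀ h4 h3 2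
      linarith
    have h5 : 0 < cq N μ (T + v) := lt_of_lt_of_le (by linarith) (le_cq hN μ (T + v))
    have h3 : ‖LL N μ Λ (1 / 2 + T * I + u)‖ ≤
        Real.exp (Real.log CM + Real.log (cq N μ (T + v)) * (phi x r / 2 + κ')) := by
      refine h1.trans ?_
      rw [Real.exp_add, Real.exp_log (by linarith), Real.rpow_def_of_pos h5]
      exact mul_le_mul_of_nonneg_right h2 (Real.exp_pos _).le
    have h6 := ff_norm hG hg1 hg2 h3
    refine h6.trans (mul_le_mul_of_nonneg_left (Real.exp_le_exp.2 ?_) hG.le)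
    rw [hure, phx_eq]
    have h7 := cq_move hN μ T v
    have h8 : (m : ℝ) * |v| ≤ m * |R1| :=
      mul_le_mul_of_nonneg_left (hv.trans (le_abs_self _)) (by linarith)
    have h9 : Real.log (cq N μ (T + v)) ≤ 2 * ℓ + (c + m * |R1|) := by
      rw [← hL] at h7
      linarith
    have h10 : Real.log (cq N μ (T + v)) * (phi x r / 2 + κ') ≤
        (2 * ℓ + (c + m * |R1|)) * (phi x r / 2 + κ') :=
      mul_le_mul_of_nonneg_right h9 (by positivity)
    have h11 : (c + m * |R1|) * (phi x r / 2 + κ') ≤ (c + m * |R1|) * (x / 2 + κ') :=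
      mul_le_mul_of_nonneg_left (by linarith) (by positivity)
    have h12 : K * (1 + ‖u‖ ^ 2) ≤ K * (2 + R1 ^ 2) := mul_le_mul_of_nonneg_left (by linarith) (by linarith)
    have h13 : (2 * ℓ + (c + m * |R1|)) * (phi x r / 2 + κ') =
        ℓ * phi x r + 2 * κ' * ℓ + (c + m * |R1|) * (phi x r / 2 + κ') := by ring
    have h14 : 2 * κ' * ℓ = κ1 / 2 * ℓ := by rw [hκ'd]; ring
    have h15 : ℓ * (r + phi x r) = ℓ * r + ℓ * phi x r := by ring
    rw [h15]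
    linarith)
  have hcnt := HS ℓ (GG θ N μ T) (x / L) (ff N Λ T) hℓa hud hsize (by positivity) (by linarith)
    (by linarith)
  rw [heat_ff] at hcnt
  -- back to the completed L-function
  have hdb := (db_all 1 (XX N Λ) hCl hne (x / L) (by positivity)).2
  intro S hS
  have h1 := cnt_shift (F := fun u => heat (x / L) (XX N Λ) (1 / 2 + T * I + u)) (a := -(1 / 2 + T * I))
    (B := {s : ℂ | 1 / 2 + η ≤ s.re ∧ |s.im - T| ≤ R}) hcnt (by
      rintro s ⟨h2, h3⟩ h4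
      have h5 : heat (x / L) (XX N Λ) s = 0 := by
        rw [← h4]
        congr 1
        ring
      have h6 := hdb.zer s h5
      have e1 : (-(1 / 2 + (T : ℂ) * I) + s).re = s.re - 1 / 2 := by simp; ring
      have e2 : (-(1 / 2 + (T : ℂ) * I) + s).im = s.im - T := by simp; ring
      refine ⟨?_, ?_, ?_⟩
      · rw [e1]
        exact (min_le_left _ _).trans (by linarith)
      · rw [e1]
        exact le_trans (by linarith) (le_max_right R 1)
      · rw [e2]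
        exact h3.trans (le_max_left _ _))
  have e : (fun z => heat (x / L) (XX N Λ) (1 / 2 + T * I + (-(1 / 2 + T * I) + z))) =
      heat (x / L) (XX N Λ) := by
    funext z
    congr 1
    ring
  simp only [e] at h1
  refine (h1 S hS).trans ?_
  exact mul_le_mul_of_nonneg_left (by linarith) hε.le

end Pool.Agent.V7H89.GL
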