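import Pool.Agent.V7H89.GL.Ud
import Pool.Agent.W169.HF.Aut3

/-!
# The gamma factor on the right of the critical line
-/

set_option autoImplicit false

open Complex Set MeasureTheory Filter Topology
open scoped ComplexConjugate

namespace Pool.Agent.V7H89.GL

open Pool.Agent.W169.HF H353.E H353.F

variable {m : ℕ}

lemma gaf_shift {N : ℝ} (hN : 1 ≤ N) {μ : Fin m → ℂ} {s : ℂ} (hs : ∀ j, s ≠ μ j) :
    gaf N μ (s + 2) = gaf N μ s * (N * ∏ j, ((s - μ j) / (2 * Real.pi))) := by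
  have hN0 : (N : ℂ) ≠ 0 := by
    have : N ≠ 0 := by linarith
    exact_mod_cast this
  unfold gaf
  have h1 : ∀ j, Gammaℝ (s + 2 - μ j) = Gammaℝ (s - μ j) * ((s - μ j) / (2 * Real.pi)) := by
    intro j
    rw [show s + 2 - μ j = (s - μ j) + 2 by ring, Gammaℝ_add_two (sub_ne_zero.2 (hs j))]
    have : (Real.pi : ℂ) ≠ 0 := by exact_mod_cast Real.pi_ne_zero
    field_simp
  rw [Finset.prod_congr rfl fun j _ => h1 j, Finset.prod_mul_distrib]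
  have h2 : (N : ℂ) ^ ((s + 2) / 2) = (N : ℂ) ^ (s / 2) * N := by
    rw [show (s + 2) / 2 = s / 2 + 1 by ring, cpow_add _ _ hN0, cpow_one]
  rw [h2]
  ring

/-- the polynomial factor against the conductor -/
lemma poly_cmp {θ : ℝ} (hθ : θ < 1 / 2) {N : ℝ} (hN : 1 ≤ N) {μ : Fin m → ℂ} (hμ : ∀ j, (μ j).re ≤ θ)
    (y : ℝ) {u : ℂ} (hu : 0 ≤ u.re) :
    N * ∏ j, ‖1 / 2 + y * I + u - μ j‖ ≤ cnd N μ y * Real.exp (m * ‖u‖) ∧
    cnd N μ y ≤ N * (∏ j, ‖1 / 2 + y * I + u - μ j‖) * Real.exp (m * ((3 / 2 + ‖u‖) / (1 / 2 - θ))) := by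
  have hη : 0 < 1 / 2 - θ := by linarith
  have hN0 : 0 < N := by linarith
  have hre : ∀ j, 1 / 2 - θ ≤ ‖1 / 2 + y * I + u - μ j‖ := fun j => by
    refine le_trans ?_ (Complex.re_le_norm _)
    have := hμ j
    have e : (1 / 2 + y * I + u - μ j : ℂ).re = 1 / 2 + u.re - (μ j).re := by simp
    rw [e]
    linarith
  have h1 : ∀ j, ‖1 / 2 + y * I + u - μ j‖ ≤ (1 + ‖(y : ℂ) * I - μ j‖) * Real.exp ‖u‖ := fun j => by
    have e : (1 / 2 + y * I + u - μ j : ℂ) = (y * I - μ j) + (1 / 2 + u) := by ring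
    have h2 : ‖1 / 2 + y * I + u - μ j‖ ≤ ‖(y : ℂ) * I - μ j‖ + (1 / 2 + ‖u‖) := by
      rw [e]
      refine (norm_add_le _ _).trans ?_
      have h3 := norm_add_le (1 / 2 : ℂ) u
      have h4 : ‖(1 / 2 : ℂ)‖ = 1 / 2 := by norm_num
      rw [h4] at h3
      linarith
    have h3 := Real.add_one_le_exp ‖u‖
    have h4 := norm_nonneg ((y : ℂ) * I - μ j)
    have h5 := norm_nonneg u
    nlinarith
  have h2 : ∀ j, 1 + ‖(y : ℂ) * I - μ j‖ ≤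
      ‖1 / 2 + y * I + u - μ j‖ * Real.exp ((3 / 2 + ‖u‖) / (1 / 2 - θ)) := fun j => by
    have e : ((y : ℂ) * I - μ j) = (1 / 2 + y * I + u - μ j) - (1 / 2 + u) := by ring
    have h3 : ‖(y : ℂ) * I - μ j‖ ≤ ‖1 / 2 + y * I + u - μ j‖ + (1 / 2 + ‖u‖) := by
      rw [e]
      refine (norm_sub_le _ _).trans ?_
      have h3 := norm_add_le (1 / 2 : ℂ) u
      have h4 : ‖(1 / 2 : ℂ)‖ = 1 / 2 := by norm_num
      rw [h4] at h3
      linarith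
    have h4 := Real.add_one_le_exp ((3 / 2 + ‖u‖) / (1 / 2 - θ))
    have h5 := hre j
    have h6 : (3 / 2 + ‖u‖) ≤ ‖1 / 2 + y * I + u - μ j‖ * ((3 / 2 + ‖u‖) / (1 / 2 - θ)) := by
      have h7 : 0 ≤ 3 / 2 + ‖u‖ := by positivity
      calc (3 / 2 + ‖u‖) = (1 / 2 - θ) * ((3 / 2 + ‖u‖) / (1 / 2 - θ)) := by
            rw [mul_div_cancel₀ _ hη.ne']
        _ ≤ _ := mul_le_mul_of_nonneg_right h5 (by positivity)
    have h7 : 0 ≤ ‖1 / 2 + y * I + u - μ j‖ := norm_nonneg _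
    have h8 : ‖1 / 2 + y * I + u - μ j‖ * ((3 / 2 + ‖u‖) / (1 / 2 - θ) + 1) ≤
        ‖1 / 2 + y * I + u - μ j‖ * Real.exp ((3 / 2 + ‖u‖) / (1 / 2 - θ)) :=
      mul_le_mul_of_nonneg_left h4 h7
    linarith
  unfold cnd
  constructor
  · rw [mul_assoc]
    apply mul_le_mul_of_nonneg_left _ hN0.le
    calc ∏ j, ‖1 / 2 + y * I + u - μ j‖ ≤ ∏ j, ((1 + ‖(y : ℂ) * I - μ j‖) * Real.exp ‖u‖) :=
          Finset.prod_le_prod (fun j _ => norm_nonneg _) fun j _ => h1 j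
      _ = _ := by
          rw [Finset.prod_mul_distrib, Finset.prod_const, Finset.card_univ, Fintype.card_fin,
            ← Real.exp_nat_mul]
  · rw [mul_assoc N]
    apply mul_le_mul_of_nonneg_left _ hN0.le
    calc ∏ j, (1 + ‖(y : ℂ) * I - μ j‖) ≤ ∏ j, (‖1 / 2 + y * I + u - μ j‖ *
          Real.exp ((3 / 2 + ‖u‖) / (1 / 2 - θ))) :=
          Finset.prod_le_prod (fun j _ => by positivity) fun j _ => h2 j
      _ = _ := by
          rw [Finset.prod_mul_distrib, Finset.prod_const, Finset.card_univ, Fintype.card_fin,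
            ← Real.exp_nat_mul]

/-- `ℓ` against the conductor -/
lemma ell_cmp {N : ℝ} (hN : 1 ≤ N) {μ : Fin m → ℂ} (hμ : ∀ j, (μ j).re ≤ 1 / 2) (y : ℝ) :
    Real.log (cnd N μ y) - 14 * m ≤ 2 * (gaD N μ (3 / 2 + y * I)).re ∧
    2 * (gaD N μ (3 / 2 + y * I)).re ≤ Real.log (cnd N μ y) + 14 * m := by
  have h1 := gaD_re_ge hN hμ y
  have h2 := gaD_re_le hN hμ y
  unfold cnd
  have : (0 : ℝ) ≤ m := Nat.cast_nonneg m
  constructor <;> linarith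

/-- the constant -/
noncomputable def K3 (m : ℕ) (θ : ℝ) : ℝ := 200 * m + m * (2 / (1 / 2 - θ))

/-- two-sided bound for the gamma factor on the right of the critical line -/
theorem gam_line (hm : 1 ≤ m) {θ : ℝ} (hθ : θ < 1 / 2) {N : ℝ} (hN : 1 ≤ N) {μ : Fin m → ℂ}
    (hμ : ∀ j, (μ j).re ≤ θ) {σ : ℝ} (hσ : 1 ≤ σ) (hσ2 : σ ≤ 5 / 2) (y : ℝ) {u : ℂ} (hu : 0 ≤ u.re) :
    GU σ (gaf N μ) (gaD N μ) y * Real.exp ((gaD N μ (3 / 2 + y * I)).re * u.re -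
      K3 m θ * (1 + ‖u‖ ^ 2)) ≤ ‖gaf N μ (1 / 2 + y * I + u)‖ ∧
    ‖gaf N μ (1 / 2 + y * I + u)‖ ≤ GU σ (gaf N μ) (gaD N μ) y *
      Real.exp ((gaD N μ (3 / 2 + y * I)).re * u.re + K3 m θ * (1 + ‖u‖ ^ 2)) := by
  have hμ' : ∀ j, (μ j).re ≤ 1 / 2 := fun j => (hμ j).trans hθ.le
  have gp := gaf_GP hm hN hμ'
  have hm' : (1 : ℝ) ≤ m := by exact_mod_cast hm
  have hη : 0 < 1 / 2 - θ := by linarith
  obtain ⟨ℓ, hℓd⟩ : ∃ ℓ : ℝ, ℓ = (gaD N μ (3 / 2 + y * I)).re := ⟨_, rfl⟩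
  obtain ⟨v, hv⟩ : ∃ v : ℂ, v = u + ((5 / 2 - σ : ℝ) : ℂ) := ⟨_, rfl⟩
  have hpt : (1 / 2 + y * I + u : ℂ) + 2 = (σ : ℂ) + y * I + v := by rw [hv]; push_cast; ring
  have hvre : v.re = u.re + (5 / 2 - σ) := by rw [hv, add_re, Complex.ofReal_re]
  have hvn : ‖v‖ ≤ ‖u‖ + 2 := by
    rw [hv]
    refine (norm_add_le _ _).trans ?_
    rw [Complex.norm_real, Real.norm_eq_abs, abs_of_nonneg (by linarith)]
    linarith
  obtain ⟨h1, h2⟩ := gam_cmp gp hσ hσ2 y (v := v) (by rw [add_re, hvre]; simp; linarith)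
  rw [← hℓd, hvre, ← hpt] at h1 h2
  have hq := quad_le (norm_nonneg u) (norm_nonneg v) hvn
  have hE : 6 * (m : ℝ) * (2 + ‖v‖) * ‖v‖ ≤ 84 * m * (1 + ‖u‖ ^ 2) := by
    calc 6 * (m : ℝ) * (2 + ‖v‖) * ‖v‖ = 6 * m * ((2 + ‖v‖) * ‖v‖) := by ring
      _ ≤ 6 * m * (14 * (1 + ‖u‖ ^ 2)) := mul_le_mul_of_nonneg_left hq (by positivity)
      _ = _ := by ring
  obtain ⟨Ev, hEv⟩ : ∃ Ev : ℝ, Ev = 6 * (m : ℝ) * (2 + ‖v‖) * ‖v‖ := ⟨_, rfl⟩
  rw [← hEv] at h1 h2 hE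
  have hne : ∀ j, (1 / 2 + y * I + u : ℂ) ≠ μ j := fun j h => by
    have h3 := congrArg Complex.re h
    have h4 := hμ j
    simp at h3
    linarith
  have hsh := gaf_shift hN hne
  obtain ⟨P, hP⟩ : ∃ P : ℝ, P = N * ∏ j, ‖1 / 2 + y * I + u - μ j‖ := ⟨_, rfl⟩
  have hN0 : 0 < N := by linarith
  have hPpos : 0 < P := by
    rw [hP]
    exact mul_pos hN0 (Finset.prod_pos fun j _ => norm_pos_iff.2 (sub_ne_zero.2 (hne j)))
  have hnorm : ‖gaf N μ (1 / 2 + y * I + u + 2)‖ =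
      ‖gaf N μ (1 / 2 + y * I + u)‖ * (P / (2 * Real.pi) ^ m) := by
    rw [hsh, norm_mul, norm_mul, Complex.norm_real, Real.norm_of_nonneg hN0.le, norm_prod, hP]
    congr 1
    rw [mul_div_assoc]
    congr 1
    have h3 : ∀ j, ‖(1 / 2 + y * I + u - μ j) / (2 * (Real.pi : ℂ))‖ =
        ‖1 / 2 + y * I + u - μ j‖ / (2 * Real.pi) := fun j => by
      rw [norm_div]
      congr 1
      rw [norm_mul, Complex.norm_real, Real.norm_of_nonneg Real.pi_pos.le]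
      norm_num
    rw [Finset.prod_congr rfl fun j _ => h3 j, Finset.prod_div_distrib, Finset.prod_const,
      Finset.card_univ, Fintype.card_fin]
  obtain ⟨h3, h4⟩ := poly_cmp hθ hN hμ y hu
  obtain ⟨h5, h6⟩ := ell_cmp hN hμ' y
  rw [← hℓd] at h5 h6
  rw [← hP] at h3 h4
  have hcnd : 0 < cnd N μ y := lt_of_lt_of_le hN0 (le_cnd hN μ y)
  obtain ⟨lc, hlc⟩ : ∃ lc : ℝ, lc = Real.log (cnd N μ y) := ⟨_, rfl⟩
  have hcnde : cnd N μ y = Real.exp lc := by rw [hlc, Real.exp_log hcnd]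
  rw [← hlc] at h5 h6
  rw [hcnde] at h3 h4
  have hpi1 : 1 ≤ (2 * Real.pi) ^ m := one_le_pow₀ (by linarith [Real.pi_gt_three])
  have hpi2 : (2 * Real.pi) ^ m ≤ Real.exp (2 * m) := by
    have h7 : 2 * Real.pi ≤ Real.exp 2 := by
      have h8 : Real.exp 2 = Real.exp 1 * Real.exp 1 := by rw [← Real.exp_add]; norm_num
      have h9 := Real.exp_one_gt_d9
      have h10 := Real.pi_lt_d2
      rw [h8]
      nlinarith
    calc (2 * Real.pi) ^ m ≤ (Real.exp 2) ^ m := pow_le_pow_left₀ (by positivity) h7 m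
      _ = Real.exp (2 * m) := by rw [← Real.exp_nat_mul]; ring_nf
  have hgaf : ‖gaf N μ (1 / 2 + y * I + u)‖ = ‖gaf N μ (1 / 2 + y * I + u + 2)‖ * (2 * Real.pi) ^ m / P := by
    rw [hnorm]
    field_simp
  have hγ0 : 0 ≤ ‖gaf N μ ((σ : ℂ) + y * I)‖ := norm_nonneg _
  have hu2 : 0 ≤ ‖u‖ ^ 2 := by positivity
  have hun : ‖u‖ ≤ (1 + ‖u‖ ^ 2) / 2 := by nlinarith [sq_nonneg (‖u‖ - 1)]
  have hK3 : K3 m θ * (1 + ‖u‖ ^ 2) = 200 * m * (1 + ‖u‖ ^ 2) + m * (2 * (1 + ‖u‖ ^ 2) / (1 / 2 - θ)) := by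
    unfold K3; ring
  have hfr : (m : ℝ) * ((3 / 2 + ‖u‖) / (1 / 2 - θ)) ≤ m * (2 * (1 + ‖u‖ ^ 2) / (1 / 2 - θ)) := by
    apply mul_le_mul_of_nonneg_left _ (by linarith)
    apply div_le_div_of_nonneg_right _ hη.le
    linarith
  have hfr0 : 0 ≤ (m : ℝ) * (2 * (1 + ‖u‖ ^ 2) / (1 / 2 - θ)) := by positivity
  have hmu : (m : ℝ) * ‖u‖ ≤ m * ((1 + ‖u‖ ^ 2) / 2) := mul_le_mul_of_nonneg_left hun (by linarith)
  have hmu2 : 0 ≤ (m : ℝ) * ‖u‖ ^ 2 := by positivity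
  have hGU : GU σ (gaf N μ) (gaD N μ) y = ‖gaf N μ ((σ : ℂ) + y * I)‖ * Real.exp (-(ℓ * (σ - 1 / 2))) := by
    unfold GU; rw [← hℓd]
  rw [← hℓd, hGU, hgaf]
  constructor
  · rw [le_div_iff₀ hPpos]
    calc ‖gaf N μ ((σ : ℂ) + y * I)‖ * Real.exp (-(ℓ * (σ - 1 / 2))) *
          Real.exp (ℓ * u.re - K3 m θ * (1 + ‖u‖ ^ 2)) * P
        ≤ (‖gaf N μ (1 / 2 + y * I + u + 2)‖ * Real.exp (-(ℓ * (u.re + (5 / 2 - σ))) + Ev)) *
          Real.exp (-(ℓ * (σ - 1 / 2))) * Real.exp (ℓ * u.re - K3 m θ * (1 + ‖u‖ ^ 2)) *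
          (Real.exp lc * Real.exp (m * ‖u‖)) := by gcongr
      _ = ‖gaf N μ (1 / 2 + y * I + u + 2)‖ * Real.exp ((-(ℓ * (u.re + (5 / 2 - σ))) + Ev) +
          -(ℓ * (σ - 1 / 2)) + (ℓ * u.re - K3 m θ * (1 + ‖u‖ ^ 2)) + (lc + m * ‖u‖)) := by
          rw [Real.exp_add _ (lc + m * ‖u‖), Real.exp_add lc,
            Real.exp_add _ (ℓ * u.re - K3 m θ * (1 + ‖u‖ ^ 2)), Real.exp_add _ (-(ℓ * (σ - 1 / 2)))]
          ring
      _ ≤ ‖gaf N μ (1 / 2 + y * I + u + 2)‖ * (2 * Real.pi) ^ m := by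
          apply mul_le_mul_of_nonneg_left _ (norm_nonneg _)
          refine le_trans ?_ hpi1
          rw [Real.exp_le_one_iff, hK3]
          linarith
  · rw [div_le_iff₀ hPpos]
    calc ‖gaf N μ (1 / 2 + y * I + u + 2)‖ * (2 * Real.pi) ^ m
        ≤ (‖gaf N μ ((σ : ℂ) + y * I)‖ * Real.exp (ℓ * (u.re + (5 / 2 - σ)) + Ev)) * Real.exp (2 * m) := by
          gcongr
      _ = ‖gaf N μ ((σ : ℂ) + y * I)‖ * Real.exp (ℓ * (u.re + (5 / 2 - σ)) + Ev + 2 * m) := by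
          rw [Real.exp_add _ (2 * (m : ℝ))]; ring
      _ ≤ ‖gaf N μ ((σ : ℂ) + y * I)‖ * Real.exp (-(ℓ * (σ - 1 / 2)) +
          (ℓ * u.re + K3 m θ * (1 + ‖u‖ ^ 2)) + (lc + -(m * ((3 / 2 + ‖u‖) / (1 / 2 - θ))))) := by
          apply mul_le_mul_of_nonneg_left _ hγ0
          apply Real.exp_le_exp.2
          rw [hK3]
          linarith
      _ = ‖gaf N μ ((σ : ℂ) + y * I)‖ * Real.exp (-(ℓ * (σ - 1 / 2))) *
          Real.exp (ℓ * u.re + K3 m θ * (1 + ‖u‖ ^ 2)) *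
          (Real.exp lc * Real.exp (-(m * ((3 / 2 + ‖u‖) / (1 / 2 - θ))))) := by
          rw [Real.exp_add _ (lc + -(m * ((3 / 2 + ‖u‖) / (1 / 2 - θ)))), Real.exp_add lc,
            Real.exp_add _ (ℓ * u.re + K3 m θ * (1 + ‖u‖ ^ 2))]
          ring
      _ ≤ _ := by
          apply mul_le_mul_of_nonneg_left _ (by positivity)
          rw [Real.exp_neg, ← div_eq_mul_inv, div_le_iff₀ (Real.exp_pos _)]
          exact h4

end Pool.Agent.V7H89.GL
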