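import Pool.Agent.W169.HF.Aut1
import Pool.Agent.W169.HF.DefsB

/-!
# The unconditional data of a completed L-function near a point of the critical line
-/

set_option autoImplicit false

open Complex Set MeasureTheory Filter Topology
open scoped ComplexConjugate

namespace Pool.Agent.V7H89.GL

open Pool.Agent.W169.HF H353.E H353.F

lemma slow_shift {f : ℂ → ℂ} (hf : Slow f) (a : ℂ) : Slow (fun u => f (a + u)) := by
  refine ⟨hf.1.comp (by fun_prop), fun δ hδ => ?_⟩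
  obtain ⟨K, hK, hb⟩ := hf.2 (δ / 2) (by positivity)
  refine ⟨K * Real.exp (δ * ‖a‖ ^ 2), by positivity, fun z => (hb _).trans ?_⟩
  rw [mul_assoc, ← Real.exp_add]
  apply mul_le_mul_of_nonneg_left _ hK.le
  apply Real.exp_le_exp.2
  have h1 : ‖a + z‖ ^ 2 ≤ 2 * ‖a‖ ^ 2 + 2 * ‖z‖ ^ 2 := by
    have h2 := norm_add_le a z
    have h3 : ‖a + z‖ ^ 2 ≤ (‖a‖ + ‖z‖) ^ 2 := pow_le_pow_left₀ (norm_nonneg _) h2 2
    nlinarith [sq_nonneg (‖a‖ - ‖z‖)]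
  nlinarith

variable {C B σ : ℝ} {Sg : ℝ → ℝ} {Λ γ D : ℂ → ℂ}

/-- the logarithmic derivative is close to its real part at the reference point -/
lemma D_near (gp : GP C Sg γ D) (y : ℝ) {z : ℂ} (hz : 1 ≤ z.re) :
    ‖D z - ((D (3 / 2 + y * I)).re : ℝ)‖ ≤ C * (1 + ‖z - (3 / 2 + y * I)‖) := by
  have h0 : (1 : ℝ) ≤ (3 / 2 + y * I : ℂ).re := by simp; norm_num
  have h1 := gp.lipD (ρ := 1) le_rfl hz h0
  rw [div_one] at h1
  have h2 := gp.im _ h0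
  have e : D z - ((D (3 / 2 + y * I)).re : ℝ) = (D z - D (3 / 2 + y * I)) + ((D (3 / 2 + y * I)).im : ℝ) * I := by
    have := Complex.re_add_im (D (3 / 2 + y * I))
    linear_combination -this
  rw [e]
  refine (norm_add_le _ _).trans ?_
  rw [norm_mul, Complex.norm_I, mul_one, Complex.norm_real, Real.norm_eq_abs]
  linarith

/-- two-sided comparison of the gamma factor with its value at `σ + i y` -/
lemma gam_cmp (gp : GP C Sg γ D) (hσ : 1 ≤ σ) (hσ2 : σ ≤ 5 / 2) (y : ℝ) {v : ℂ}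
    (hv : 1 ≤ ((σ : ℂ) + y * I + v).re) :
    ‖γ ((σ : ℂ) + y * I + v)‖ ≤ ‖γ ((σ : ℂ) + y * I)‖ *
      Real.exp ((D (3 / 2 + y * I)).re * v.re + C * (2 + ‖v‖) * ‖v‖) ∧
    ‖γ ((σ : ℂ) + y * I)‖ ≤ ‖γ ((σ : ℂ) + y * I + v)‖ *
      Real.exp (-((D (3 / 2 + y * I)).re * v.re) + C * (2 + ‖v‖) * ‖v‖) := by
  have hC := gp.C_nonneg
  have hs : 1 ≤ ((σ : ℂ) + y * I).re := by simpa using hσ
  have hre : ((σ : ℂ) + y * I).re = σ := by simp
  have hnear : ∀ x ∈ Icc (0 : ℝ) 1, ‖D ((σ : ℂ) + y * I + x * v) - ((D (3 / 2 + y * I)).re : ℝ)‖ ≤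
      C * (2 + ‖v‖) := by
    intro x hx
    have h1 : 1 ≤ ((σ : ℂ) + y * I + x * v).re := by
      rw [add_re, Complex.re_ofReal_mul]
      rw [add_re] at hv
      nlinarith [hx.1, hx.2]
    refine (D_near gp y h1).trans ?_
    apply mul_le_mul_of_nonneg_left _ hC
    have e : (σ : ℂ) + y * I + x * v - (3 / 2 + y * I) = ((σ - 3 / 2 : ℝ) : ℂ) + x * v := by
      push_cast; ring
    rw [e]
    have h2 := norm_add_le (((σ - 3 / 2 : ℝ) : ℂ)) ((x : ℂ) * v)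
    rw [Complex.norm_real, norm_mul, Complex.norm_real, Real.norm_eq_abs, Real.norm_eq_abs,
      abs_of_nonneg hx.1] at h2
    have h3 : |σ - 3 / 2| ≤ 1 := abs_le.2 ⟨by linarith, by linarith⟩
    have h4 : x * ‖v‖ ≤ 1 * ‖v‖ := mul_le_mul_of_nonneg_right hx.2 (norm_nonneg _)
    linarith
  constructor
  · exact gam_move gp hs hv hnear
  · have h1 := gam_move gp (s := (σ : ℂ) + y * I + v) (v := -v) (ℓ := (D (3 / 2 + y * I)).re)
      (K := C * (2 + ‖v‖)) hv (by rw [add_neg_cancel_right]; exact hs) (fun x hx => by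
        have h2 := hnear (1 - x) ⟨by linarith [hx.2], by linarith [hx.1]⟩
        have e : (σ : ℂ) + y * I + v + x * -v = (σ : ℂ) + y * I + ((1 - x : ℝ) : ℂ) * v := by
          push_cast; ring
        rw [e]
        exact h2)
    rw [add_neg_cancel_right, norm_neg, neg_re, mul_neg] at h1
    exact h1

/-- the constant -/
noncomputable def KU (C B : ℝ) : ℝ := Real.log B + 14 * C

lemma KU_ge (hC : 1 ≤ C) (hB : 1 ≤ B) : 1 ≤ KU C B := by
  unfold KU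
  have := Real.log_nonneg hB
  linarith

/-- the size at the reference point -/
noncomputable def GU (σ : ℝ) (γ D : ℂ → ℂ) (y : ℝ) : ℝ :=
  ‖γ ((σ : ℂ) + y * I)‖ * Real.exp (-((D (3 / 2 + y * I)).re * (σ - 1 / 2)))

lemma quad_le {a : ℝ} (h0 : 0 ≤ a) {n : ℝ} (hn : 0 ≤ n) (hna : n ≤ a + 2) :
    (2 + n) * n ≤ 14 * (1 + a ^ 2) := by
  nlinarith [sq_nonneg (a - 1)]

/-- the unconditional data -/
theorem ud_of_sharp (S : Sharp C B σ Sg Λ γ D) (hσ2 : σ ≤ 5 / 2) (hslow : Slow Λ) (y : ℝ) :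
    UD (KU C B) (σ - 1 / 2) (D (3 / 2 + y * I)).re (GU σ γ D y) (fun u => Λ (1 / 2 + y * I + u)) := by
  have hC := S.hC
  have hB := S.hB
  have hσ := S.hσ
  have hB0 : 0 < B := by linarith
  obtain ⟨ℓ, hℓd⟩ : ∃ ℓ : ℝ, ℓ = (D (3 / 2 + y * I)).re := ⟨_, rfl⟩
  rw [← hℓd]
  have hs0 : 1 ≤ ((σ : ℂ) + y * I).re := by simpa using hσ
  have hγ0 : 0 < ‖γ ((σ : ℂ) + y * I)‖ := norm_pos_iff.2 (S.gp.ne _ hs0)
  have hG : GU σ γ D y = ‖γ ((σ : ℂ) + y * I)‖ * Real.exp (-(ℓ * (σ - 1 / 2))) := by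
    unfold GU; rw [← hℓd]
  have hG0 : 0 < GU σ γ D y := by rw [hG]; positivity
  have hlogB : B = Real.exp (Real.log B) := (Real.exp_log hB0).symm
  have hlogB0 := Real.log_nonneg hB
  have hpt : ∀ u : ℂ, (1 / 2 + y * I + u : ℂ) = (σ : ℂ) + y * I + (u - ((σ - 1 / 2 : ℝ) : ℂ)) := fun u => by
    push_cast; ring
  have hvn : ∀ u : ℂ, ‖u - ((σ - 1 / 2 : ℝ) : ℂ)‖ ≤ ‖u‖ + 2 := fun u => by
    refine (norm_sub_le _ _).trans ?_
    rw [Complex.norm_real, Real.norm_eq_abs, abs_of_nonneg (by linarith)]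
    linarith
  have hq : ∀ u : ℂ, C * (2 + ‖u - ((σ - 1 / 2 : ℝ) : ℂ)‖) * ‖u - ((σ - 1 / 2 : ℝ) : ℂ)‖ ≤
      14 * C * (1 + ‖u‖ ^ 2) := fun u => by
    have := quad_le (norm_nonneg u) (norm_nonneg (u - ((σ - 1 / 2 : ℝ) : ℂ))) (hvn u)
    calc C * (2 + ‖u - ((σ - 1 / 2 : ℝ) : ℂ)‖) * ‖u - ((σ - 1 / 2 : ℝ) : ℂ)‖ =
        C * ((2 + ‖u - ((σ - 1 / 2 : ℝ) : ℂ)‖) * ‖u - ((σ - 1 / 2 : ℝ) : ℂ)‖) := by ring
      _ ≤ C * (14 * (1 + ‖u‖ ^ 2)) := mul_le_mul_of_nonneg_left this (by linarith)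
      _ = _ := by ring
  have hre : ∀ u : ℂ, (u - ((σ - 1 / 2 : ℝ) : ℂ)).re = u.re - (σ - 1 / 2) := fun u => by
    rw [sub_re, Complex.ofReal_re]
  have hfe : ∃ ε : ℂ, ‖ε‖ = 1 ∧ ∀ u : ℂ, Λ (1 / 2 + y * I + u) = ε * conj (Λ (1 / 2 + y * I + -conj u)) := by
    obtain ⟨ε, h1, h2⟩ := S.fe
    refine ⟨ε, h1, fun u => ?_⟩
    rw [h2 (1 / 2 + y * I + u)]
    congr 3
    simp only [map_add, map_mul, Complex.conj_I, Complex.conj_ofReal, map_div₀, map_one, map_ofNat]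
    ring
  -- to the right
  have hright : ∀ u : ℂ, σ - 1 / 2 ≤ u.re →
      ‖Λ (1 / 2 + y * I + u)‖ ≤ GU σ γ D y * Real.exp (ℓ * u.re + KU C B * (1 + ‖u‖ ^ 2)) ∧
      GU σ γ D y * Real.exp (ℓ * u.re - KU C B * (1 + ‖u‖ ^ 2)) ≤ ‖Λ (1 / 2 + y * I + u)‖ := by
    intro u hu
    have hs : σ ≤ ((σ : ℂ) + y * I + (u - ((σ - 1 / 2 : ℝ) : ℂ))).re := by
      rw [add_re, hre]; simp; linarith
    obtain ⟨h1, h2⟩ := gam_cmp S.gp hσ hσ2 y (v := u - ((σ - 1 / 2 : ℝ) : ℂ)) (hσ.trans hs)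
    rw [← hℓd, hre] at h1 h2
    have h3 := S.hi _ hs
    have h4 := S.lo _ hs
    rw [← hpt] at h1 h2 h3 h4
    have hqu := hq u
    have hu2 : 0 ≤ ‖u‖ ^ 2 := by positivity
    have hK : KU C B * (1 + ‖u‖ ^ 2) = Real.log B * (1 + ‖u‖ ^ 2) + 14 * C * (1 + ‖u‖ ^ 2) := by
      unfold KU; ring
    constructor
    · rw [hG, mul_assoc, ← Real.exp_add]
      calc ‖Λ (1 / 2 + y * I + u)‖ ≤ B * (‖γ ((σ : ℂ) + y * I)‖ *
          Real.exp (ℓ * (u.re - (σ - 1 / 2)) + C * (2 + ‖u - ((σ - 1 / 2 : ℝ) : ℂ)‖) *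
            ‖u - ((σ - 1 / 2 : ℝ) : ℂ)‖)) := h3.trans (mul_le_mul_of_nonneg_left h1 hB0.le)
        _ = ‖γ ((σ : ℂ) + y * I)‖ * Real.exp (Real.log B + (ℓ * (u.re - (σ - 1 / 2)) +
            C * (2 + ‖u - ((σ - 1 / 2 : ℝ) : ℂ)‖) * ‖u - ((σ - 1 / 2 : ℝ) : ℂ)‖)) := by
            rw [Real.exp_add (Real.log B), Real.exp_log hB0]; ring
        _ ≤ _ := by
            apply mul_le_mul_of_nonneg_left _ hγ0.le
            apply Real.exp_le_exp.2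
            rw [hK]
            nlinarith
    · rw [hG]
      have h5 : ‖γ ((σ : ℂ) + y * I)‖ ≤ B * ‖Λ (1 / 2 + y * I + u)‖ *
          Real.exp (-(ℓ * (u.re - (σ - 1 / 2))) + C * (2 + ‖u - ((σ - 1 / 2 : ℝ) : ℂ)‖) *
            ‖u - ((σ - 1 / 2 : ℝ) : ℂ)‖) :=
        h2.trans (mul_le_mul_of_nonneg_right h4 (Real.exp_pos _).le)
      calc ‖γ ((σ : ℂ) + y * I)‖ * Real.exp (-(ℓ * (σ - 1 / 2))) *
            Real.exp (ℓ * u.re - KU C B * (1 + ‖u‖ ^ 2))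
          ≤ (B * ‖Λ (1 / 2 + y * I + u)‖ *
          Real.exp (-(ℓ * (u.re - (σ - 1 / 2))) + C * (2 + ‖u - ((σ - 1 / 2 : ℝ) : ℂ)‖) *
            ‖u - ((σ - 1 / 2 : ℝ) : ℂ)‖)) * Real.exp (-(ℓ * (σ - 1 / 2))) *
            Real.exp (ℓ * u.re - KU C B * (1 + ‖u‖ ^ 2)) := by gcongr
        _ = ‖Λ (1 / 2 + y * I + u)‖ * Real.exp (Real.log B +
            (-(ℓ * (u.re - (σ - 1 / 2))) + C * (2 + ‖u - ((σ - 1 / 2 : ℝ) : ℂ)‖) *
            ‖u - ((σ - 1 / 2 : ℝ) : ℂ)‖) + -(ℓ * (σ - 1 / 2)) + (ℓ * u.re - KU C B * (1 + ‖u‖ ^ 2))) := by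
            generalize -(ℓ * (u.re - (σ - 1 / 2))) + C * (2 + ‖u - ((σ - 1 / 2 : ℝ) : ℂ)‖) *
              ‖u - ((σ - 1 / 2 : ℝ) : ℂ)‖ = q
            rw [Real.exp_add (Real.log B + q + -(ℓ * (σ - 1 / 2))), Real.exp_add (Real.log B + q),
              Real.exp_add (Real.log B), Real.exp_log hB0]
            ring
        _ ≤ ‖Λ (1 / 2 + y * I + u)‖ * 1 := by
            apply mul_le_mul_of_nonneg_left _ (norm_nonneg _)
            rw [Real.exp_le_one_iff, hK]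
            nlinarith
        _ = _ := mul_one _
  -- in the right half of the strip
  have hmid : ∀ u : ℂ, 0 ≤ u.re → u.re ≤ σ - 1 / 2 →
      ‖Λ (1 / 2 + y * I + u)‖ ≤ GU σ γ D y * Real.exp (ℓ * (σ - 1 / 2) + KU C B * (1 + ‖u‖ ^ 2)) := by
    intro u hu0 hu1
    have hre2 : (1 / 2 + y * I + u : ℂ).re = 1 / 2 + u.re := by simp
    have him2 : (1 / 2 + y * I + u : ℂ).im = y + u.im := by simp
    have h1 := S.strip (1 / 2 + y * I + u) (by rw [hre2]; linarith) (by rw [hre2]; linarith)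
    rw [him2] at h1
    have e : (σ : ℂ) + ((y + u.im : ℝ) : ℂ) * I = (σ : ℂ) + y * I + (u.im : ℂ) * I := by push_cast; ring
    rw [e] at h1
    obtain ⟨h2, -⟩ := gam_cmp S.gp hσ hσ2 y (v := (u.im : ℂ) * I) (by simpa using hσ)
    rw [← hℓd] at h2
    have e2 : ((u.im : ℂ) * I).re = 0 := by simp
    have e3 : ‖(u.im : ℂ) * I‖ = |u.im| := by
      rw [norm_mul, Complex.norm_I, mul_one, Complex.norm_real, Real.norm_eq_abs]
    rw [e2, e3, mul_zero, zero_add] at h2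
    have h3 : |u.im| ≤ ‖u‖ := Complex.abs_im_le_norm u
    have hqu := quad_le (norm_nonneg u) (abs_nonneg u.im) (by linarith)
    have hu2 : 0 ≤ ‖u‖ ^ 2 := by positivity
    have hK : KU C B * (1 + ‖u‖ ^ 2) = Real.log B * (1 + ‖u‖ ^ 2) + 14 * C * (1 + ‖u‖ ^ 2) := by
      unfold KU; ring
    have hqu2 : C * (2 + |u.im|) * |u.im| ≤ 14 * C * (1 + ‖u‖ ^ 2) := by
      calc C * (2 + |u.im|) * |u.im| = C * ((2 + |u.im|) * |u.im|) := by ring
        _ ≤ C * (14 * (1 + ‖u‖ ^ 2)) := mul_le_mul_of_nonneg_left hqu (by linarith)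
        _ = _ := by ring
    rw [hG, mul_assoc, ← Real.exp_add]
    calc ‖Λ (1 / 2 + y * I + u)‖ ≤ B * (‖γ ((σ : ℂ) + y * I)‖ * Real.exp (C * (2 + |u.im|) * |u.im|)) :=
          h1.trans (mul_le_mul_of_nonneg_left h2 hB0.le)
      _ = ‖γ ((σ : ℂ) + y * I)‖ * Real.exp (Real.log B + C * (2 + |u.im|) * |u.im|) := by
          rw [Real.exp_add, Real.exp_log hB0]; ring
      _ ≤ _ := by
          apply mul_le_mul_of_nonneg_left _ hγ0.le
          apply Real.exp_le_exp.2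
          rw [hK]
          nlinarith
  -- the right half plane
  have hhalf : ∀ u : ℂ, 0 ≤ u.re → ‖Λ (1 / 2 + y * I + u)‖ ≤
      GU σ γ D y * Real.exp (ℓ * max |u.re| (σ - 1 / 2) + KU C B * (1 + ‖u‖ ^ 2)) := by
    intro u hu
    rw [abs_of_nonneg hu]
    rcases le_total (σ - 1 / 2) u.re with h | h
    · rw [max_eq_left h]
      exact (hright u h).1
    · rw [max_eq_right h]
      exact hmid u hu h
  refine
    { slow := slow_shift hslow _, fe := hfe, hG := hG0, up := fun u => ?_, lo := fun u hu => (hright u hu).2 }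
  rcases le_total 0 u.re with h | h
  · exact hhalf u h
  · obtain ⟨ε, h1, h2⟩ := hfe
    have h3 : ‖Λ (1 / 2 + y * I + u)‖ = ‖Λ (1 / 2 + y * I + -conj u)‖ := by
      rw [h2 u, norm_mul, h1, one_mul, Complex.norm_conj]
    show ‖Λ (1 / 2 + y * I + u)‖ ≤ _
    rw [h3]
    have h4 := hhalf (-conj u) (by simp; linarith)
    have e1 : |(-conj u).re| = |u.re| := by simp
    have e2 : ‖-conj u‖ = ‖u‖ := by rw [norm_neg, Complex.norm_conj]
    rwa [e1, e2] at h4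

end Pool.Agent.V7H89.GL
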